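import Pool.Agent.Helper20.Mono.Goals

/-! Lattice lemmas for the box count (5.1). -/

namespace Mono.H33

open Finset

variable {n : ℕ}

theorem toR_sum {ι : Type*} (s : Finset ι) (f : ι → Fin n → ℤ) :
    toR (∑ i ∈ s, f i) = ∑ i ∈ s, toR (f i) := by
  funext j
  simp [Finset.sum_apply]

theorem toR_smul (k : ℤ) (x : Fin n → ℤ) : toR (k • x) = (k : ℝ) • toR x := by
  funext j
  simp

theorem toR_sub (u v : Fin n → ℤ) : toR (u - v) = toR u - toR v := by
  funext i; simp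

/-- An integer vector in the real span of integer vectors is in the rational span. -/
theorem exists_rat (F : Finset (Fin n → ℤ)) (b : Fin n → ℤ) (c : (Fin n → ℤ) → ℝ)
    (h : toR b = ∑ u ∈ F, c u • toR u) :
    ∃ r : (Fin n → ℤ) → ℚ, toR b = ∑ u ∈ F, (r u : ℝ) • toR u := by
  obtain ⟨φ, hφ⟩ : ∃ φ : ℝ →ₗ[ℚ] ℚ, φ 1 = 1 := by
    obtain ⟨f, hf⟩ := (LinearMap.toSpanSingleton ℚ ℝ 1).exists_leftInverse_of_injective (by
      rw [LinearMap.ker_eq_bot]
      intro a b hab
      simpa [LinearMap.toSpanSingleton_apply] using hab)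
    refine ⟨f, ?_⟩
    have := LinearMap.congr_fun hf 1
    simpa [LinearMap.toSpanSingleton_apply] using this
  have hφz : ∀ (z : ℤ) (x : ℝ), φ (x * z) = φ x * z := by
    intro z x
    have h1 : x * (z : ℝ) = z • x := by simp [mul_comm]
    rw [h1, map_zsmul]
    simp [mul_comm]
  refine ⟨fun u => φ (c u), ?_⟩
  funext i
  have h1 := congrFun h i
  simp only [toR_apply, Finset.sum_apply, Pi.smul_apply, smul_eq_mul] at h1
  have h2 : φ ((b i : ℤ) : ℝ) = φ (∑ u ∈ F, c u * (u i : ℝ)) := by rw [h1]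
  rw [map_sum] at h2
  have h3 : φ ((b i : ℤ) : ℝ) = (b i : ℚ) := by
    have := hφz (b i) 1
    rw [one_mul, hφ, one_mul] at this
    exact this
  rw [h3] at h2
  simp only [toR_apply, Finset.sum_apply, Pi.smul_apply, smul_eq_mul]
  have h4 : ((b i : ℚ) : ℝ) = ((∑ u ∈ F, φ (c u * (u i : ℝ)) : ℚ) : ℝ) := by rw [h2]
  push_cast at h4
  rw [h4]
  refine Finset.sum_congr rfl fun u _ => ?_
  rw [hφz]
  push_cast
  rfl

theorem mem_sat_of_comb (F : Finset (Fin n → ℤ)) (b : Fin n → ℤ) (c : (Fin n → ℤ) → ℝ)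
    (h : toR b = ∑ u ∈ F, c u • toR u) : b ∈ sat (F : Set (Fin n → ℤ)) := by
  classical
  obtain ⟨r, hr⟩ := exists_rat F b c h
  set k : ℕ := ∏ u ∈ F, (r u).den with hk
  have hk0 : k ≠ 0 := Finset.prod_ne_zero_iff.2 fun u _ => (r u).den_nz
  have hz : ∀ u ∈ F, ∃ z : ℤ, (k : ℚ) * r u = z := by
    intro u hu
    obtain ⟨m, hm⟩ := Finset.dvd_prod_of_mem (fun u => (r u).den) hu
    refine ⟨m * (r u).num, ?_⟩
    rw [hk, hm]
    push_cast
    have := Rat.den_mul_eq_num (r u)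
    calc ((r u).den : ℚ) * m * r u = m * ((r u).den * r u) := by ring
      _ = m * (r u).num := by rw [this]
  choose! z hz using hz
  refine ⟨(k : ℤ), by exact_mod_cast hk0, ?_⟩
  have h1 : (k : ℤ) • b = ∑ u ∈ F, z u • u := by
    apply toR_injective
    rw [toR_smul, toR_sum, hr, Finset.smul_sum]
    refine Finset.sum_congr rfl fun u hu => ?_
    rw [toR_smul, smul_smul]
    congr 1
    have := hz u hu
    have h2 : (((k : ℚ) * r u : ℚ) : ℝ) = ((z u : ℚ) : ℝ) := by rw [this]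
    push_cast at h2 ⊢
    exact h2
  rw [h1]
  exact AddSubgroup.sum_mem _ fun u hu =>
    AddSubgroup.zsmul_mem _ (AddSubgroup.subset_closure (by exact_mod_cast hu)) _

theorem closure_comb (F : Finset (Fin n → ℤ)) {b : Fin n → ℤ}
    (h : b ∈ AddSubgroup.closure (F : Set (Fin n → ℤ))) :
    ∃ z : (Fin n → ℤ) → ℤ, b = ∑ u ∈ F, z u • u := by
  classical
  induction h using AddSubgroup.closure_induction with
  | mem x hx =>
    refine ⟨fun u => if u = x then 1 else 0, ?_⟩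
    have hx' : x ∈ F := by exact_mod_cast hx
    simp [hx']
  | zero => exact ⟨0, by simp⟩
  | add x y _ _ hx hy =>
    obtain ⟨z, hz⟩ := hx
    obtain ⟨z', hz'⟩ := hy
    refine ⟨z + z', ?_⟩
    rw [hz, hz', ← Finset.sum_add_distrib]
    exact Finset.sum_congr rfl fun u _ => by simp [add_smul]
  | neg x _ hx =>
    obtain ⟨z, hz⟩ := hx
    refine ⟨-z, ?_⟩
    rw [hz, ← Finset.sum_neg_distrib]
    exact Finset.sum_congr rfl fun u _ => by simp

theorem sat_comb (F : Finset (Fin n → ℤ)) {b : Fin n → ℤ} (h : b ∈ sat (F : Set (Fin n → ℤ))) :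
    ∃ c : (Fin n → ℤ) → ℝ, toR b = ∑ u ∈ F, c u • toR u := by
  obtain ⟨k, hk, hb⟩ := h
  obtain ⟨z, hz⟩ := closure_comb F hb
  refine ⟨fun u => (z u : ℝ) / k, ?_⟩
  have hk' : (k : ℝ) ≠ 0 := by exact_mod_cast hk
  have h1 : (k : ℝ) • toR b = ∑ u ∈ F, (z u : ℝ) • toR u := by
    rw [← toR_smul, hz, toR_sum]
    exact Finset.sum_congr rfl fun u _ => toR_smul _ _
  calc toR b = (k : ℝ)⁻¹ • ((k : ℝ) • toR b) := by rw [smul_smul, inv_mul_cancel₀ hk', one_smul]
    _ = ∑ u ∈ F, ((z u : ℝ) / k) • toR u := by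
      rw [h1, Finset.smul_sum]
      refine Finset.sum_congr rfl fun u _ => ?_
      rw [smul_smul]
      congr 1
      field_simp

theorem closure_le_sat (B : Set (Fin n → ℤ)) : AddSubgroup.closure B ≤ sat B := by
  intro x hx
  exact ⟨1, one_ne_zero, by simpa using hx⟩

/-- A linear functional with prescribed values on an independent set. -/
theorem exists_functional {τ : Finset (Fin n → ℤ)} (h : Indep τ) (f : (Fin n → ℤ) → ℝ) :
    ∃ l : (Fin n → ℝ) →ₗ[ℝ] ℝ, ∀ u ∈ τ, l (toR u) = f u := by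
  have h' : LinearIndependent ℝ (fun u : τ => toR (u : Fin n → ℤ)) := h
  obtain ⟨l, hl⟩ := LinearMap.exists_extend
    ((Module.Basis.span h').constr ℝ (fun u : τ => f u))
  refine ⟨l, fun u hu => ?_⟩
  have h1 := LinearMap.congr_fun hl (Module.Basis.span h' ⟨u, hu⟩)
  rw [Module.Basis.constr_basis] at h1
  rw [← h1, LinearMap.comp_apply]
  congr 1
  rw [Submodule.subtype_apply, Module.Basis.span_apply]

end Mono.H33
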