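import Pool.Agent.Helper20.Mono.Goals

/-! The shelling of the star of a face (types). -/

namespace Mono

open Finset

variable {n : ℕ} {Φ : Fan n} {T : Finset (Fin n)}

lemma mem_mxT_h33 {τ : Finset (Fin n → ℤ)} :
    τ ∈ Φ.mxT T ↔ Φ.IsFace τ ∧ τ.card = T.card ∧ ∀ u ∈ τ, ∀ i, i ∉ T → u i = 0 := by
  unfold Fan.mxT
  rw [Finset.mem_filter, Fan.mem_faces]

lemma mxT_indep {τ : Finset (Fin n → ℤ)} (h : τ ∈ Φ.mxT T) : Indep τ :=
  (mem_mxT_h33.1 h).1.indep

/-- Coordinates of vectors of `ℝ^T`. -/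
lemma sum_crdT (hS : SpanT) {τ : Finset (Fin n → ℤ)} (h : τ ∈ Φ.mxT T) {y : Fin n → ℝ}
    (hy : ∀ i, i ∉ T → y i = 0) : ∑ u ∈ τ, crd τ y u • toR u = y := (hS n Φ T τ h y hy).2.symm

lemma crdT_add (hS : SpanT) {τ : Finset (Fin n → ℤ)} (h : τ ∈ Φ.mxT T) {x y : Fin n → ℝ}
    (hx : ∀ i, i ∉ T → x i = 0) (hy : ∀ i, i ∉ T → y i = 0) {u : Fin n → ℤ} (hu : u ∈ τ) :
    crd τ (x + y) u = crd τ x u + crd τ y u := by
  refine crd_eq (mxT_indep h) (c := fun u => crd τ x u + crd τ y u) ?_ hu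
  simp only [add_smul]
  rw [Finset.sum_add_distrib, sum_crdT hS h hx, sum_crdT hS h hy]

lemma crdT_smul (hS : SpanT) {τ : Finset (Fin n → ℤ)} (h : τ ∈ Φ.mxT T) {x : Fin n → ℝ}
    (hx : ∀ i, i ∉ T → x i = 0) (a : ℝ) {u : Fin n → ℤ} (hu : u ∈ τ) :
    crd τ (a • x) u = a * crd τ x u := by
  refine crd_eq (mxT_indep h) (c := fun u => a * crd τ x u) ?_ hu
  simp only [mul_smul]
  rw [← Finset.smul_sum, sum_crdT hS h hx]

lemma crdT_sum (hS : SpanT) {τ : Finset (Fin n → ℤ)} (h : τ ∈ Φ.mxT T) {ι : Type*}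
    (s : Finset ι) (c : ι → ℝ) (x : ι → Fin n → ℝ) (hx : ∀ j, ∀ i, i ∉ T → x j i = 0)
    {u : Fin n → ℤ} (hu : u ∈ τ) :
    crd τ (∑ j ∈ s, c j • x j) u = ∑ j ∈ s, c j * crd τ (x j) u := by
  refine crd_eq (mxT_indep h) (c := fun u => ∑ j ∈ s, c j * crd τ (x j) u) ?_ hu
  simp only [Finset.sum_smul]
  rw [Finset.sum_comm]
  refine Finset.sum_congr rfl fun j _ => ?_
  simp only [mul_smul]
  rw [← Finset.smul_sum, sum_crdT hS h (hx j)]

/-- The vector `y` as a combination of the standard basis. -/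
lemma eq_sum_single {y : Fin n → ℝ} (hy : ∀ i, i ∉ T → y i = 0) :
    y = ∑ j ∈ T, y j • (Pi.single j 1 : Fin n → ℝ) := by
  funext i
  rw [Finset.sum_apply]
  by_cases hi : i ∈ T
  · rw [Finset.sum_eq_single i]
    · simp
    · intro j _ hj
      simp [Pi.single_apply, hj.symm]
    · exact fun h => absurd hi h
  · rw [hy i hi, Finset.sum_eq_zero]
    intro j hj
    have : i ≠ j := fun e => hi (e ▸ hj)
    simp [Pi.single_apply, this]

lemma single_zero {j : Fin n} (hj : j ∈ T) : ∀ i, i ∉ T → (Pi.single j 1 : Fin n → ℝ) i = 0 := by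
  intro i hi
  have : i ≠ j := fun e => hi (e ▸ hj)
  simp [Pi.single_apply, this]

/-- A generic positive vector of `ℝ^T`. -/
lemma exists_generic (hS : SpanT) (Φ : Fan n) (T : Finset (Fin n)) :
    ∃ x : Fin n → ℝ, (∀ i, i ∉ T → x i = 0) ∧ (∀ i ∈ T, 0 < x i) ∧
      ∀ τ ∈ Φ.mxT T, ∀ u ∈ τ, crd τ x u ≠ 0 := by
  classical
  -- the moment curve
  let x : ℝ → Fin n → ℝ := fun t => ∑ j ∈ T, (t ^ ((j : ℕ) + 1)) • (Pi.single j 1 : Fin n → ℝ)
  have hx0 : ∀ t i, i ∉ T → x t i = 0 := by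
    intro t i hi
    simp only [x, Finset.sum_apply]
    refine Finset.sum_eq_zero fun j hj => ?_
    rw [Pi.smul_apply, single_zero hj i hi, smul_zero]
  have hxi : ∀ t, ∀ i ∈ T, x t i = t ^ ((i : ℕ) + 1) := by
    intro t i hi
    simp only [x, Finset.sum_apply]
    rw [Finset.sum_eq_single i]
    · simp
    · intro j _ hj
      simp [Pi.single_apply, hj.symm]
    · exact fun h => absurd hi h
  -- the polynomials
  let p : Finset (Fin n → ℤ) → (Fin n → ℤ) → Polynomial ℝ := fun τ u =>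
    ∑ j ∈ T, Polynomial.C (crd τ (Pi.single j 1) u) * Polynomial.X ^ ((j : ℕ) + 1)
  have hp : ∀ τ ∈ Φ.mxT T, ∀ u ∈ τ, ∀ t, (p τ u).eval t = crd τ (x t) u := by
    intro τ hτ u hu t
    simp only [p, x]
    have h1 : crd τ (∑ j ∈ T, (t ^ ((j : ℕ) + 1)) • (Pi.single j 1 : Fin n → ℝ)) u =
        ∑ j ∈ T, t ^ ((j : ℕ) + 1) * crd τ (Pi.single j 1) u := by
      refine crd_eq (mxT_indep hτ)
        (c := fun u => ∑ j ∈ T, t ^ ((j : ℕ) + 1) * crd τ (Pi.single j 1) u) ?_ hu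
      simp only [Finset.sum_smul]
      rw [Finset.sum_comm]
      refine Finset.sum_congr rfl fun j hj => ?_
      simp only [mul_smul]
      rw [← Finset.smul_sum, sum_crdT hS hτ (single_zero hj)]
    rw [h1, Polynomial.eval_finsetSum]
    refine Finset.sum_congr rfl fun j _ => ?_
    rw [Polynomial.eval_mul, Polynomial.eval_C, Polynomial.eval_pow, Polynomial.eval_X, mul_comm]
  have hpne : ∀ τ ∈ Φ.mxT T, ∀ u ∈ τ, p τ u ≠ 0 := by
    intro τ hτ u hu h0
    have hcoef : ∀ j ∈ T, crd τ (Pi.single j 1) u = 0 := by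
      intro j hj
      have h1 := congrArg (fun q : Polynomial ℝ => q.coeff ((j : ℕ) + 1)) h0
      simp only [p, Polynomial.finsetSum_coeff, Polynomial.coeff_C_mul, Polynomial.coeff_X_pow,
        Polynomial.coeff_zero] at h1
      rw [Finset.sum_eq_single j] at h1
      · simpa using h1
      · intro i _ hi
        have : ¬ ((j : ℕ) + 1 = (i : ℕ) + 1) := by
          intro e
          exact hi (Fin.ext (by omega))
        rw [if_neg this, mul_zero]
      · exact fun h => absurd hj h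
    -- but the coordinate of `u` is one
    have huT : ∀ i, i ∉ T → toR u i = 0 := by
      intro i hi
      simp [(mem_mxT_h33.1 hτ).2.2 u hu i hi]
    have h1 : crd τ (toR u) u = 1 := by
      rw [crd_toR (mxT_indep hτ) hu]
      simp
    have h2 : crd τ (toR u) u = ∑ j ∈ T, toR u j * crd τ (Pi.single j 1) u := by
      conv_lhs => rw [eq_sum_single huT]
      refine crd_eq (mxT_indep hτ)
        (c := fun v => ∑ j ∈ T, toR u j * crd τ (Pi.single j 1) v) ?_ hu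
      simp only [Finset.sum_smul]
      rw [Finset.sum_comm]
      refine Finset.sum_congr rfl fun j hj => ?_
      simp only [mul_smul]
      rw [← Finset.smul_sum, sum_crdT hS hτ (single_zero hj)]
    rw [h2, Finset.sum_eq_zero] at h1
    · exact zero_ne_one h1
    · intro j hj
      rw [hcoef j hj, mul_zero]
  -- a point avoiding all roots
  have hfin : (⋃ τ ∈ Φ.mxT T, ⋃ u ∈ τ, {t : ℝ | (p τ u).eval t = 0}).Finite := by
    refine Set.Finite.biUnion (Finset.finite_toSet _) fun τ hτ => ?_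
    refine Set.Finite.biUnion (Finset.finite_toSet _) fun u hu => ?_
    exact Polynomial.finite_setOfPred_isRoot (hpne τ hτ u hu)
  obtain ⟨t, ht, ht'⟩ := (Set.Ioi_infinite (0 : ℝ)).exists_notMem_finite hfin
  refine ⟨x t, hx0 t, ?_, ?_⟩
  · intro i hi
    rw [hxi t i hi]
    exact pow_pos ht _
  · intro τ hτ u hu h0
    apply ht'
    simp only [Set.mem_iUnion]
    exact ⟨τ, hτ, u, hu, by simpa [hp τ hτ u hu] using h0⟩

/-- Heights of cones. -/
lemma height_lt (hS : SpanT) {h : (Fin n → ℤ) → ℝ}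
    (hh : ∀ F ∈ Φ.mx, ∃ k : Fin n → ℝ, (∀ u ∈ F, k ⬝ᵥ toR u = h u) ∧
      ∀ u ∈ Φ.vert, u ∉ F → k ⬝ᵥ toR u < h u)
    {x : Fin n → ℝ} (hx : ∀ i, i ∉ T → x i = 0) {τ τ' A : Finset (Fin n → ℤ)}
    (hτ : τ ∈ Φ.mxT T) (hτ' : τ' ∈ Φ.mxT T) (hA : A ⊆ τ) (hA' : A ⊆ τ') (hne : τ' ≠ τ)
    (hpos : ∀ u ∈ τ, u ∉ A → 0 < crd τ x u) :
    ∑ u ∈ τ', crd τ' x u * h u < ∑ u ∈ τ, crd τ x u * h u := by
  classical
  obtain ⟨⟨F', hF', hsub⟩, hcard', hT'⟩ := mem_mxT_h33.1 hτ'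
  obtain ⟨hface, hcard, hTτ⟩ := mem_mxT_h33.1 hτ
  obtain ⟨k, hk, hk'⟩ := hh F' hF'
  -- value of `k` on `x`
  have h1 : k ⬝ᵥ x = ∑ u ∈ τ', crd τ' x u * h u := by
    conv_lhs => rw [← sum_crdT hS hτ' hx]
    rw [dotProduct_sum]
    refine Finset.sum_congr rfl fun u hu => ?_
    rw [dotProduct_smul, smul_eq_mul, hk u (hsub hu)]
  have h2 : k ⬝ᵥ x = ∑ u ∈ τ, crd τ x u * (k ⬝ᵥ toR u) := by
    conv_lhs => rw [← sum_crdT hS hτ hx]
    rw [dotProduct_sum]
    refine Finset.sum_congr rfl fun u hu => ?_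
    rw [dotProduct_smul, smul_eq_mul]
  rw [← h1, h2]
  -- a vertex of `τ` outside `F'`
  have hnotin : ∀ u ∈ τ, u ∉ τ' → u ∉ F' := by
    intro u hu hu' huF
    have h3 : Indep (insert u τ') :=
      (Φ.mx_indep F' hF').subset (Finset.insert_subset huF hsub)
    have huT : ∀ i, i ∉ T → toR u i = 0 := by
      intro i hi
      simp [hTτ u hu i hi]
    have h4 := sum_crdT hS hτ' huT
    have h5 : ∑ v ∈ insert u τ', (if v = u then (-1 : ℝ) else crd τ' (toR u) v) • toR v = 0 := by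
      rw [Finset.sum_insert hu']
      simp only [if_true]
      have h6 : ∑ v ∈ τ', (if v = u then (-1 : ℝ) else crd τ' (toR u) v) • toR v =
          ∑ v ∈ τ', crd τ' (toR u) v • toR v := by
        refine Finset.sum_congr rfl fun v hv => ?_
        have : v ≠ u := fun e => hu' (e ▸ hv)
        rw [if_neg this]
      rw [h6, h4]
      simp
    have h7 := h3.sum_eq_zero h5 u (Finset.mem_insert_self _ _)
    simp at h7
  obtain ⟨u₀, hu₀, hu₀'⟩ : ∃ u ∈ τ, u ∉ τ' := by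
    by_contra hcon
    push Not at hcon
    exact hne (Finset.eq_of_subset_of_card_le hcon (by rw [hcard', hcard])).symm
  refine Finset.sum_lt_sum ?_ ⟨u₀, hu₀, ?_⟩
  · intro u hu
    by_cases huτ' : u ∈ τ'
    · rw [hk u (hsub huτ')]
    · have hlt := hk' u (Fan.IsFace.subset_vert Φ hface hu) (hnotin u hu huτ')
      have huA : u ∉ A := fun h => huτ' (hA' h)
      exact (mul_le_mul_of_nonneg_left hlt.le (hpos u hu huA).le)
  · have hlt := hk' u₀ (Fan.IsFace.subset_vert Φ hface hu₀) (hnotin u₀ hu₀ hu₀')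
    have huA : u₀ ∉ A := fun h => hu₀' (hA' h)
    exact mul_lt_mul_of_pos_left hlt (hpos u₀ hu₀ huA)

theorem shelling (hS : SpanT) (hC : StarCoverT) : Shelling := by
  classical
  intro n Φ ⟨h, hh⟩ G hG T hGT
  obtain ⟨x, hx0, hxpos, hxgen⟩ := exists_generic hS Φ T
  refine ⟨fun τ => (τ \ G).filter (fun u => crd τ x u < 0), fun τ => ∑ u ∈ τ, crd τ x u * h u,
    fun τ => Finset.filter_subset _ _, ?_⟩
  intro A hA hGA hAT
  obtain ⟨τ, hτ, hAτ, hpos⟩ := hC n Φ T A hA hAT x hx0 (fun i hi _ => (hxpos i hi).le)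
  refine ⟨τ, Finset.mem_filter.2 ⟨hτ, hGA.trans hAτ⟩, ?_, hAτ, ?_⟩
  · intro u hu
    rw [Finset.mem_filter] at hu
    by_contra huA
    have := hpos u huA
    linarith [hu.2]
  · intro τ' hτ' hAτ' hne
    rw [Finset.mem_filter] at hτ'
    have h1 : ∀ u ∈ τ, u ∉ A → 0 < crd τ x u := fun u hu huA =>
      lt_of_le_of_ne (hpos u huA) (hxgen τ hτ u hu).symm
    have h2 := height_lt hS hh hx0 hτ hτ'.1 hAτ hAτ' hne h1
    refine ⟨h2, fun hR => ?_⟩
    have h3 : ∀ u ∈ τ', u ∉ A → 0 < crd τ' x u := by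
      intro u hu huA
      refine lt_of_le_of_ne ?_ (hxgen τ' hτ'.1 u hu).symm
      by_contra hneg
      push Not at hneg
      exact huA (hR (Finset.mem_filter.2 ⟨Finset.mem_sdiff.2 ⟨hu, fun hG' => huA (hGA hG')⟩, hneg⟩))
    have h4 := height_lt hS hh hx0 hτ'.1 hτ hAτ' hAτ hne.symm h3
    linarith

end Mono
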