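import Pool.Agent.Helper20.Mono.GoalsH
import Pool.Agent.Helper22.Mono.A1
import Pool.Agent.Helper33.Mono.Types

/-! H2: the limit `w → (1,…,1)`. -/

namespace Mono.H33Z

open Finset Filter Topology

variable {n : ℕ}

theorem exists_eta (Φ : Fan n) : ∃ η : Fin n → ℝ, Φ.Generic η := by
  obtain ⟨x, _, hx, hx'⟩ := exists_generic spanT Φ Finset.univ
  refine ⟨x, fun F hF u hu => hx' F ?_ u hu, fun i => (hx i (Finset.mem_univ i)).ne'⟩
  unfold Fan.mxT
  rw [Finset.mem_filter, Φ.mem_faces]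
  exact ⟨⟨F, hF, Finset.Subset.refl F⟩, by rw [Φ.mx_card F hF]; simp,
    fun u _ i hi => absurd (Finset.mem_univ i) hi⟩

/-- `ψ` as a linear map. -/
noncomputable def psiL (Z : Finset (Fin n → ℤ)) {F : Finset (Fin n → ℤ)} (h : Indep F)
    (hc : F.card = n) : (Fin n → ℝ) →ₗ[ℝ] ℝ where
  toFun := psi Z F
  map_add' := psi_add Z h hc
  map_smul' := fun a x => by rw [psi_smul Z h hc]; rfl

theorem psi_pos {A Z : Finset (Fin n → ℤ)} {Φ : Fan n} (ht : Tri A Z Φ)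
    {F : Finset (Fin n → ℤ)} (hF : F ∈ Φ.mx) : 0 < psi Z F (fun _ => (1 : ℝ)) := by
  classical
  obtain ⟨⟨v, hv⟩, hA, _, hd, hvert, hN, _⟩ := ht
  obtain ⟨h1, h2⟩ := hN.2.2 F hF
  set P := psiL Z (Φ.mx_indep F hF) (Φ.mx_card F hF) with hP
  have hPx : ∀ x : Fin n → ℝ, P x = ∑ i, x i * P (Pi.single i 1) := by
    intro x
    conv_lhs => rw [show x = ∑ i, x i • (Pi.single i (1 : ℝ) : Fin n → ℝ) from by
      funext j
      simp [Finset.sum_apply, Pi.single_apply]]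
    rw [map_sum]
    simp only [map_smul, smul_eq_mul]
  have hvm : v ∈ Φ.vert \ Z := by
    rw [Finset.mem_sdiff, hvert]
    exact ⟨Finset.mem_union_left _ hv, Finset.disjoint_left.1 hd hv⟩
  have h3 : 1 ≤ P (toR v) := h1 v hvm
  have h4 : ∀ i, 0 ≤ P (Pi.single i 1) := h2
  have h5 : ∃ i, 0 < P (Pi.single i 1) := by
    by_contra hcon
    push Not at hcon
    have : P (toR v) ≤ 0 := by
      rw [hPx]
      refine Finset.sum_nonpos fun i _ => ?_
      have h6 : P (Pi.single i 1) = 0 := le_antisymm (hcon i) (h4 i)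
      rw [h6, mul_zero]
    linarith
  obtain ⟨i, hi⟩ := h5
  change 0 < P (fun _ => (1 : ℝ))
  rw [hPx]
  simp only [one_mul]
  exact Finset.sum_pos' (fun j _ => h4 j) ⟨i, Finset.mem_univ i, hi⟩

theorem eventually_affine (a b : ℝ) (hb : b ≠ 0) : ∀ᶠ ε : ℝ in 𝓝[>] 0, a + ε * b ≠ 0 := by
  by_cases ha : a = 0
  · filter_upwards [self_mem_nhdsWithin] with ε hε
    rw [ha, zero_add]
    exact mul_ne_zero (ne_of_gt hε) hb
  · have h1 : Tendsto (fun ε : ℝ => a + ε * b) (𝓝[>] 0) (𝓝 a) := by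
      have : Tendsto (fun ε : ℝ => a + ε * b) (𝓝 0) (𝓝 (a + 0 * b)) := by
        apply Continuous.tendsto
        fun_prop
      rw [zero_mul, add_zero] at this
      exact this.mono_left nhdsWithin_le_nhds
    exact h1.eventually_ne ha

theorem tendsto_affine (a b : ℝ) : Tendsto (fun ε : ℝ => a + ε * b) (𝓝[>] 0) (𝓝 a) := by
  have : Tendsto (fun ε : ℝ => a + ε * b) (𝓝 0) (𝓝 (a + 0 * b)) := by
    apply Continuous.tendsto
    fun_prop
  rw [zero_mul, add_zero] at this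
  exact this.mono_left nhdsWithin_le_nhds

theorem face_pos {T : Fan n} {δ : Finset (Fin n → ℤ)} (hδ : T.IsFace δ) {a : Fin n → ℤ}
    (ha : a ∈ δ) : (∀ i, 0 ≤ a i) ∧ 0 < (fun _ => (1 : ℝ)) ⬝ᵥ toR a := by
  classical
  have h0 : ∀ i, 0 ≤ a i := T.vert_nonneg a (hδ.subset_vert T ha)
  refine ⟨h0, ?_⟩
  have hne : a ≠ 0 := by
    intro h
    have := (hδ.indep T).ne_zero ⟨a, ha⟩
    apply this
    simp only [h]
    exact toR_zero
  obtain ⟨i, hi⟩ : ∃ i, a i ≠ 0 := by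
    by_contra hcon
    push Not at hcon
    exact hne (funext hcon)
  rw [dotProduct]
  refine Finset.sum_pos' (fun j _ => ?_) ⟨i, Finset.mem_univ i, ?_⟩
  · rw [one_mul, toR_apply]
    exact_mod_cast h0 j
  · rw [one_mul, toR_apply]
    have : 0 < a i := lt_of_le_of_ne (h0 i) (Ne.symm hi)
    exact_mod_cast this

theorem NA_nonneg {A : Finset (Fin n → ℤ)} (hne : A.Nonempty) (hA : ∀ v ∈ A, ∀ i, 0 ≤ v i)
    {a : Fin n → ℤ} (ha : ∀ i, 0 ≤ a i) : 0 ≤ NA A a := by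
  unfold NA
  obtain ⟨v, hv⟩ := hne
  refine le_csInf ⟨a ⬝ᵥ v, v, hv, rfl⟩ ?_
  rintro _ ⟨v, hv, rfl⟩
  exact Finset.sum_nonneg fun i _ => mul_nonneg (ha i) (hA v hv i)

theorem dot_w (η : Fin n → ℝ) (ε : ℝ) (a : Fin n → ℝ) :
    ((fun _ => (1 : ℝ)) + ε • η) ⬝ᵥ a = (fun _ => (1 : ℝ)) ⬝ᵥ a + ε * (η ⬝ᵥ a) := by
  rw [add_dotProduct, smul_dotProduct, smul_eq_mul]

end Mono.H33Z

namespace Mono

open Finset Filter Topology Mono.H33Z

/-- H2. -/
theorem zFormula (h1 : ZWIdentity) (h2 : FaceSumZ) (h3 : LimitW) : ZFormula := by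
  classical
  intro n A Z Φ hn ht
  obtain ⟨η, hη⟩ := exists_eta Φ
  obtain ⟨q, hq0, hq⟩ := h3 n Φ Z η hη
  refine ⟨q, hq0, fun F hF => psi_pos ht hF, ?_⟩
  intro T hT s hs
  have hAne := ht.1
  have hA0 := ht.2.1
  rw [h2 n A Z Φ T ht hT s]
  -- the path
  set w : ℝ → Fin n → ℝ := fun ε => (fun _ => (1 : ℝ)) + ε • η with hw
  -- left side
  have hL : Tendsto (fun ε => ∑ τ ∈ Φ.faces.filter (fun τ => τ.Nonempty ∧ τ ⊆ A),
      cDL (τ.card - 1) s * (vol τ : ℝ) * Jsum A Z T τ s (w ε)) (𝓝[>] 0)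
      (𝓝 (∑ τ ∈ Φ.faces.filter (fun τ => τ.Nonempty ∧ τ ⊆ A),
      cDL (τ.card - 1) s * (vol τ : ℝ) * Jsum A Z T τ s (fun _ => 1))) := by
    refine tendsto_finsetSum _ fun τ _ => Tendsto.const_mul _ ?_
    unfold Jsum
    refine tendsto_finsetSum _ fun δ hδ => ?_
    rw [Finset.mem_filter, T.mem_faces] at hδ
    refine Tendsto.div tendsto_const_nhds ?_ ?_
    · refine tendsto_finsetProd _ fun a _ => ?_
      refine Tendsto.const_add _ ?_
      simp only [hw, dot_w]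
      exact tendsto_affine _ _
    · rw [Finset.prod_ne_zero_iff]
      intro a ha
      obtain ⟨ha0, ha1⟩ := face_pos hδ.1 ha
      have h5 : (0 : ℝ) ≤ NA A a := by exact_mod_cast NA_nonneg hAne hA0 ha0
      have h6 : 0 ≤ (NA A a : ℝ) * s := mul_nonneg h5 hs.le
      exact (add_pos_of_nonneg_of_pos h6 ha1).ne'
  -- right side
  have hW := hq s (fun F hF => by
    have := psi_pos ht hF
    linarith)
  have hR : Tendsto (fun ε => (1 / (s + 1)) * (∏ i, (w ε i)⁻¹ - s * Φ.W Z s (w ε))) (𝓝[>] 0)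
      (𝓝 ((1 / (s + 1)) * (∏ _i : Fin n, (1 : ℝ)⁻¹ -
        s * ∑ a ∈ Φ.mx.image (fun F => psi Z F (fun _ => (1 : ℝ))),
          (q a).eval (1 / (s + a))))) := by
    refine Tendsto.const_mul _ (Tendsto.sub ?_ (Tendsto.const_mul _ hW))
    refine tendsto_finsetProd _ fun i _ => ?_
    refine Tendsto.inv₀ ?_ one_ne_zero
    have : (fun ε => w ε i) = fun ε => 1 + ε * η i := by
      funext ε
      simp [hw]
    rw [this]
    exact tendsto_affine _ _
  -- eventually equal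
  have hE : ∀ᶠ ε : ℝ in 𝓝[>] 0, ∑ τ ∈ Φ.faces.filter (fun τ => τ.Nonempty ∧ τ ⊆ A),
      cDL (τ.card - 1) s * (vol τ : ℝ) * Jsum A Z T τ s (w ε) =
      (1 / (s + 1)) * (∏ i, (w ε i)⁻¹ - s * Φ.W Z s (w ε)) := by
    have e1 : ∀ᶠ ε : ℝ in 𝓝[>] 0, ∀ F ∈ Φ.mx, ∀ u ∈ F, crd F (w ε) u ≠ 0 := by
      rw [Filter.eventually_all_finset]
      intro F hF
      rw [Filter.eventually_all_finset]
      intro u hu
      have h5 := eventually_affine (crd F (fun _ => (1 : ℝ)) u) (crd F η u) (hη.1 F hF u hu)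
      filter_upwards [h5] with ε hε
      have hi := Φ.mx_indep F hF
      have hc := Φ.mx_card F hF
      simp only [hw]
      rw [crd_add hi hc, crd_smul hi hc]
      exact hε
    have e2 : ∀ᶠ ε : ℝ in 𝓝[>] 0, ∀ i : Fin n, w ε i ≠ 0 := by
      rw [Filter.eventually_all]
      intro i
      have h5 := (tendsto_affine 1 (η i)).eventually_ne one_ne_zero
      filter_upwards [h5] with ε hε
      simpa [hw] using hε
    have e3 : ∀ᶠ ε : ℝ in 𝓝[>] 0, ∀ F ∈ Φ.mx, s + psi Z F (w ε) ≠ 0 := by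
      rw [Filter.eventually_all_finset]
      intro F hF
      have hi := Φ.mx_indep F hF
      have hc := Φ.mx_card F hF
      have hp := psi_pos ht hF
      have h5 := (tendsto_affine (s + psi Z F (fun _ => (1 : ℝ))) (psi Z F η)).eventually_ne
        (by linarith : s + psi Z F (fun _ => (1 : ℝ)) ≠ 0)
      filter_upwards [h5] with ε hε
      simp only [hw]
      rw [psi_add Z hi hc, psi_smul Z hi hc, ← add_assoc]
      exact hε
    have e4 : ∀ᶠ ε : ℝ in 𝓝[>] 0, ∀ δ ∈ T.mx, ∀ a ∈ δ, (NA A a : ℝ) * s + w ε ⬝ᵥ toR a ≠ 0 := by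
      rw [Filter.eventually_all_finset]
      intro δ hδ
      rw [Filter.eventually_all_finset]
      intro a ha
      obtain ⟨ha0, ha1⟩ := face_pos ⟨δ, hδ, Finset.Subset.refl δ⟩ ha
      have h5 : (0 : ℝ) ≤ NA A a := by exact_mod_cast NA_nonneg hAne hA0 ha0
      have h6 : 0 ≤ (NA A a : ℝ) * s := mul_nonneg h5 hs.le
      have h7 := (tendsto_affine ((NA A a : ℝ) * s + (fun _ => (1 : ℝ)) ⬝ᵥ toR a)
        (η ⬝ᵥ toR a)).eventually_ne (add_pos_of_nonneg_of_pos h6 ha1).ne'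
      filter_upwards [h7] with ε hε
      simp only [hw]
      rw [dot_w, ← add_assoc]
      exact hε
    have e5 : ∀ᶠ ε : ℝ in 𝓝[>] 0, ∀ δ ∈ T.mx, ∀ a ∈ δ, w ε ⬝ᵥ toR a ≠ 0 := by
      rw [Filter.eventually_all_finset]
      intro δ hδ
      rw [Filter.eventually_all_finset]
      intro a ha
      obtain ⟨ha0, ha1⟩ := face_pos ⟨δ, hδ, Finset.Subset.refl δ⟩ ha
      have h7 := (tendsto_affine ((fun _ => (1 : ℝ)) ⬝ᵥ toR a)
        (η ⬝ᵥ toR a)).eventually_ne ha1.ne'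
      filter_upwards [h7] with ε hε
      simp only [hw]
      rw [dot_w]
      exact hε
    filter_upwards [e1, e2, e3, e4, e5] with ε h1' h2' h3' h4' h5'
    exact h1 n A Z Φ T hn ht hT (w ε) ⟨h1', h2'⟩ s (by linarith) h3' h4' h5'
  have hfin := tendsto_nhds_unique (hL.congr' hE) hR
  rw [hfin]
  simp only [inv_one, Finset.prod_const_one]
  ring

end Mono
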