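import Pool.Agent.Helper33.Mono.SI

/-! Regularity of linear forms modulo the variables outside a facet. -/

namespace Pool.Agent.Helper33.Mono

open MvPolynomial Module

variable {σ : Type*} {k : Type*} [Field k] {n : ℕ}

/-- The ideal generated by the variables in `W`. -/
noncomputable def vI (k : Type*) [Field k] (W : Set σ) : Ideal (MvPolynomial σ k) :=
  Ideal.span ((fun u => (X u : MvPolynomial σ k)) '' W)

lemma mem_vI {W : Set σ} {p : MvPolynomial σ k} :
    p ∈ vI k W ↔ ∀ m ∈ p.support, ∃ u ∈ W, m u ≠ 0 := mem_ideal_span_X_image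

lemma pF_eq (F : Finset σ) : pF k F = vI k {u | u ∉ F} := by
  ext p
  rw [mem_pF, mem_vI]
  apply forall_congr'
  intro m
  apply imp_congr_right
  intro _
  rw [Finset.not_subset]
  constructor
  · rintro ⟨u, hu, hu'⟩
    exact ⟨u, hu', Finsupp.mem_support_iff.1 hu⟩
  · rintro ⟨u, hu, hu'⟩
    exact ⟨u, Finsupp.mem_support_iff.2 hu', hu⟩

lemma vI_prime {W : Set σ} {v : σ} (hv : v ∉ W) {p : MvPolynomial σ k}
    (h : X v * p ∈ vI k W) : p ∈ vI k W := by
  rw [mem_vI] at h ⊢
  intro m hm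
  have h1 : (Finsupp.single v 1 + m) ∈ (X v * p).support := by
    rw [MvPolynomial.mem_support_iff, coeff_X_mul]
    exact MvPolynomial.mem_support_iff.1 hm
  obtain ⟨u, hu, hu'⟩ := h _ h1
  refine ⟨u, hu, ?_⟩
  have hne : v ≠ u := fun e => hv (e ▸ hu)
  rwa [Finsupp.add_apply, Finsupp.single_eq_of_ne hne.symm, zero_add] at hu'

lemma vI_univ : vI k (Set.univ : Set σ) = RingHom.ker (aeval (R := k) (fun _ : σ => (0 : k))) := by
  apply le_antisymm
  · unfold vI
    rw [Ideal.span_le]
    rintro _ ⟨u, _, rfl⟩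
    simp
  · intro p hp
    rw [RingHom.mem_ker] at hp
    rw [mem_vI]
    intro m hm
    by_contra hcon
    push Not at hcon
    have h0 : m = 0 := by
      ext u
      exact hcon u trivial
    rw [h0, MvPolynomial.mem_support_iff] at hm
    apply hm
    have : aeval (R := k) (fun _ : σ => (0 : k)) p = constantCoeff p := by
      have h2 : (aeval (R := k) (fun _ : σ => (0 : k))).toRingHom = constantCoeff := by
        apply MvPolynomial.ringHom_ext
        · intro r
          simp
        · intro i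
          simp
      exact congrArg (fun f : MvPolynomial σ k →+* k => f p) h2
    change aeval (R := k) (fun _ : σ => (0 : k)) p = 0 at hp
    rw [this] at hp
    exact hp

lemma finrank_vI_univ : Module.Finite k (MvPolynomial σ k ⧸ vI k (Set.univ : Set σ)) ∧
    finrank k (MvPolynomial σ k ⧸ vI k (Set.univ : Set σ)) = 1 := by
  rw [vI_univ]
  have hs : Function.Surjective (aeval (R := k) (fun _ : σ => (0 : k))) := by
    intro c
    exact ⟨C c, by simp⟩
  have e := (Ideal.quotientKerAlgEquivOfSurjective hs).toLinearEquiv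
  exact ⟨Module.Finite.equiv e.symm, by rw [e.finrank_eq, finrank_self]⟩

/-- Linear forms `θ_j` (`j ∈ T`) which modulo the variables outside `F` are given by an invertible
matrix, and `θ_j` (`j ∉ T`) in the ideal of the variables outside `F`. -/
structure LinData (θ : Fin n → MvPolynomial σ k) (T : Set (Fin n)) (F : Finset σ)
    (e : Fin n → σ) (A A' : σ → σ → k) : Prop where
  e_mem : ∀ j ∈ T, e j ∈ F
  e_inj : Set.InjOn e T
  e_surj : ∀ u ∈ F, ∃ j ∈ T, e j = u
  theta : ∀ j ∈ T, θ j - ∑ v ∈ F, C (A (e j) v) * X v ∈ pF k F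
  theta' : ∀ j ∉ T, θ j ∈ pF k F
  mul1 : ∀ u ∈ F, ∀ w ∈ F, u ≠ w → ∑ v ∈ F, A u v * A' v w = 0
  mul1' : ∀ u ∈ F, ∑ v ∈ F, A u v * A' v u = 1
  mul2 : ∀ u ∈ F, ∀ w ∈ F, u ≠ w → ∑ v ∈ F, A' u v * A v w = 0
  mul2' : ∀ u ∈ F, ∑ v ∈ F, A' u v * A v u = 1

open Classical in
/-- The substitution given by the matrix `A`. -/
noncomputable def subst (F : Finset σ) (A : σ → σ → k) : MvPolynomial σ k →ₐ[k] MvPolynomial σ k :=
  aeval (fun u => if u ∈ F then ∑ v ∈ F, C (A u v) * X v else X u)

lemma subst_X_mem {F : Finset σ} (A : σ → σ → k) {u : σ} (hu : u ∈ F) :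
    subst F A (X u) = ∑ v ∈ F, C (A u v) * X v := by
  simp [subst, hu]

lemma subst_X_notMem {F : Finset σ} (A : σ → σ → k) {u : σ} (hu : u ∉ F) :
    subst F A (X u) = X u := by
  simp [subst, hu]

lemma subst_subst {F : Finset σ} {A A' : σ → σ → k}
    (h : ∀ u ∈ F, ∀ w ∈ F, u ≠ w → ∑ v ∈ F, A u v * A' v w = 0)
    (h' : ∀ u ∈ F, ∑ v ∈ F, A u v * A' v u = 1) (p : MvPolynomial σ k) :
    subst F A' (subst F A p) = p := by
  have key : (subst F A').comp (subst F A) = AlgHom.id k _ := by
    apply MvPolynomial.algHom_ext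
    intro u
    rw [AlgHom.comp_apply, AlgHom.id_apply]
    by_cases hu : u ∈ F
    · rw [subst_X_mem A hu, map_sum]
      have h1 : ∀ v ∈ F, subst F A' (C (A u v) * X v) =
          ∑ w ∈ F, C (A u v * A' v w) * X w := by
        intro v hv
        rw [map_mul, subst_X_mem A' hv, Finset.mul_sum]
        refine Finset.sum_congr rfl fun w _ => ?_
        rw [MvPolynomial.algHom_C, MvPolynomial.algebraMap_eq, C_mul, mul_assoc]
      rw [Finset.sum_congr rfl h1, Finset.sum_comm]
      have h2 : ∀ w ∈ F, ∑ v ∈ F, (C (A u v * A' v w) * X w : MvPolynomial σ k) =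
          C (∑ v ∈ F, A u v * A' v w) * X w := by
        intro w _
        rw [map_sum, Finset.sum_mul]
      rw [Finset.sum_congr rfl h2, Finset.sum_eq_single u]
      · rw [h' u hu, C_1, one_mul]
      · intro w hw hne
        rw [h u hu w hw hne.symm, C_0, zero_mul]
      · exact fun hn => absurd hu hn
    · rw [subst_X_notMem A hu, subst_X_notMem A' hu]
  exact congrArg (fun f : MvPolynomial σ k →ₐ[k] MvPolynomial σ k => f p) key

section

variable {θ : Fin n → MvPolynomial σ k} {T : Set (Fin n)} {F : Finset σ}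
    {e : Fin n → σ} {A A' : σ → σ → k}

/-- The set of variables corresponding to the variables outside `F` and the first `r` forms. -/
def WW (T : Set (Fin n)) (F : Finset σ) (e : Fin n → σ) (r : ℕ) : Set σ :=
  {u | u ∉ F} ∪ {u | ∃ i ∈ T, (i : ℕ) < r ∧ u = e i}

lemma vI_mono {W W' : Set σ} (h : W ⊆ W') : vI k W ≤ vI k W' :=
  Ideal.span_mono (Set.image_mono h)

lemma map_vI (h : LinData θ T F e A A') (r : ℕ) :
    (vI k (WW T F e r)).map (subst F A) = pF k F ⊔ TH θ r := by
  have hpF : ∀ u, u ∉ F → (X u : MvPolynomial σ k) ∈ pF k F := by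
    intro u hu
    rw [pF_eq]
    exact Ideal.subset_span ⟨u, hu, rfl⟩
  have hout : pF k F ≤ (vI k (WW T F e r)).map (subst F A) := by
    rw [pF_eq]
    unfold vI
    rw [Ideal.span_le]
    rintro _ ⟨u, hu, rfl⟩
    have h1 : subst F A (X u) = X u := subst_X_notMem A hu
    have h2 : subst F A (X u) ∈ (vI k (WW T F e r)).map (subst F A) :=
      Ideal.mem_map_of_mem _ (Ideal.subset_span ⟨u, Or.inl hu, rfl⟩)
    rw [h1] at h2
    exact h2
  apply le_antisymm
  · unfold vI
    rw [Ideal.map_span, Ideal.span_le]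
    rintro _ ⟨_, ⟨u, hu, rfl⟩, rfl⟩
    rcases hu with hu | ⟨i, hi, hir, rfl⟩
    · have h1 : subst F A (X u) = X u := subst_X_notMem A hu
      change subst F A (X u) ∈ _
      rw [h1]
      exact Ideal.mem_sup_left (hpF u hu)
    · change subst F A (X (e i)) ∈ _
      rw [subst_X_mem A (h.e_mem i hi)]
      have h1 := h.theta i hi
      have h2 : θ i ∈ TH θ r := Ideal.subset_span ⟨i, hir, rfl⟩
      have e1 : ∑ v ∈ F, C (A (e i) v) * X v = θ i - (θ i - ∑ v ∈ F, C (A (e i) v) * X v) := by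
        ring
      rw [e1]
      exact sub_mem (Ideal.mem_sup_right h2) (Ideal.mem_sup_left h1)
  · refine sup_le hout ?_
    unfold TH
    rw [Ideal.span_le]
    rintro _ ⟨i, hir, rfl⟩
    by_cases hi : i ∈ T
    · have h1 := hout (h.theta i hi)
      have h2 : subst F A (X (e i)) ∈ (vI k (WW T F e r)).map (subst F A) :=
        Ideal.mem_map_of_mem _ (Ideal.subset_span ⟨e i, Or.inr ⟨i, hi, hir, rfl⟩, rfl⟩)
      rw [subst_X_mem A (h.e_mem i hi)] at h2
      have h3 := add_mem h1 h2
      rw [sub_add_cancel] at h3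
      exact h3
    · exact hout (h.theta' i hi)

lemma mem_iff (h : LinData θ T F e A A') (r : ℕ) (x : MvPolynomial σ k) :
    x ∈ pF k F ⊔ TH θ r ↔ subst F A' x ∈ vI k (WW T F e r) := by
  rw [← map_vI h]
  constructor
  · intro hx
    have h1 : (vI k (WW T F e r)).map (subst F A) ≤
        (vI k (WW T F e r)).comap (subst F A') := by
      rw [Ideal.map_le_iff_le_comap]
      intro y hy
      rw [Ideal.mem_comap, Ideal.mem_comap, subst_subst h.mul1 h.mul1']
      exact hy
    exact h1 hx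
  · intro hx
    have h1 := Ideal.mem_map_of_mem (subst F A) hx
    rwa [subst_subst h.mul2 h.mul2'] at h1

lemma linreg (h : LinData θ T F e A A') : Reg θ T (pF k F) := by
  intro j hj x hx
  rw [mem_iff h] at hx ⊢
  have h1 : subst F A' (θ j - ∑ v ∈ F, C (A (e j) v) * X v) ∈ vI k (WW T F e j) := by
    rw [← mem_iff h]
    exact Ideal.mem_sup_left (h.theta j hj)
  have h2 : subst F A' (∑ v ∈ F, C (A (e j) v) * X v) = X (e j) := by
    rw [← subst_X_mem A (h.e_mem j hj), subst_subst h.mul1 h.mul1']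
  rw [map_sub, h2] at h1
  rw [map_mul] at hx
  have h3 : X (e j) * subst F A' x ∈ vI k (WW T F e j) := by
    have e1 : X (e j) * subst F A' x = subst F A' (θ j) * subst F A' x -
        (subst F A' (θ j) - X (e j)) * subst F A' x := by ring
    rw [e1]
    exact sub_mem hx (Ideal.mul_mem_right _ _ h1)
  refine vI_prime ?_ h3
  rintro (h4 | ⟨i, hi, hij, h4⟩)
  · exact h4 (h.e_mem j hj)
  · have := h.e_inj hj hi h4
    omega

lemma lindim (h : LinData θ T F e A A') :
    Module.Finite k (MvPolynomial σ k ⧸ (pF k F ⊔ TH θ n)) ∧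
      finrank k (MvPolynomial σ k ⧸ (pF k F ⊔ TH θ n)) = 1 := by
  have hW : WW T F e n = Set.univ := by
    rw [Set.eq_univ_iff_forall]
    intro u
    by_cases hu : u ∈ F
    · obtain ⟨j, hj, rfl⟩ := h.e_surj u hu
      exact Or.inr ⟨j, hj, j.2, rfl⟩
    · exact Or.inl hu
  let E : MvPolynomial σ k ≃ₐ[k] MvPolynomial σ k :=
    AlgEquiv.ofAlgHom (subst F A) (subst F A')
      (AlgHom.ext fun p => subst_subst h.mul2 h.mul2' p)
      (AlgHom.ext fun p => subst_subst h.mul1 h.mul1' p)
  have hE : pF k F ⊔ TH θ n = (vI k (Set.univ : Set σ)).map (E : MvPolynomial σ k →+* MvPolynomial σ k) := by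
    rw [← map_vI h n, hW]
    rfl
  obtain ⟨h1, h2⟩ := finrank_vI_univ (σ := σ) (k := k)
  have e' := (Ideal.quotientEquivAlg _ _ E hE).toLinearEquiv
  exact ⟨Module.Finite.equiv e', by rw [← e'.finrank_eq, h2]⟩

end

end Pool.Agent.Helper33.Mono
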