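import Pool.Agent.Helper33.Mono.Types
import Pool.Agent.Helper33.Mono.Lin

/-! Proposition 4 (AlgMain). -/

namespace Mono

open Finset Pool.Agent.Helper33.Mono

/-- Enumeration of a finite set in the order of a real function. -/
lemma exists_enum {α : Type*} [Inhabited α] (X : Finset α) (φ : α → ℝ) :
    ∃ f : ℕ → α, (∀ m < X.card, f m ∈ X) ∧ (∀ a ∈ X, ∃ m < X.card, f m = a) ∧
      (∀ m m', m < X.card → m' < X.card → f m = f m' → m = m') ∧
      ∀ m m', m ≤ m' → m' < X.card → φ (f m) ≤ φ (f m') := by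
  classical
  induction X using Finset.strongInduction with
  | H X ih =>
    rcases X.eq_empty_or_nonempty with rfl | hne
    · exact ⟨fun _ => default, by simp, by simp, by simp, by simp⟩
    · obtain ⟨a, ha, hmax⟩ := X.exists_max_image φ hne
      obtain ⟨f, h1, h2, h3, h4⟩ := ih (X.erase a) (Finset.erase_ssubset ha)
      have hc : (X.erase a).card + 1 = X.card := Finset.card_erase_add_one ha
      refine ⟨fun m => if m < (X.erase a).card then f m else a, ?_, ?_, ?_, ?_⟩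
      · intro m _
        dsimp only
        split_ifs with h
        · exact Finset.mem_of_mem_erase (h1 m h)
        · exact ha
      · intro b hb
        by_cases hba : b = a
        · exact ⟨(X.erase a).card, by omega, by simp [hba]⟩
        · obtain ⟨m, hm, hm'⟩ := h2 b (Finset.mem_erase.2 ⟨hba, hb⟩)
          exact ⟨m, by omega, by simp [hm, hm']⟩
      · intro m m' hm hm' he
        dsimp only at he
        split_ifs at he with h h' h'
        · exact h3 m m' h h' he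
        · exact absurd he (Finset.ne_of_mem_erase (h1 m h))
        · exact absurd he.symm (Finset.ne_of_mem_erase (h1 m' h'))
        · omega
      · intro m m' hmm hm'
        dsimp only
        split_ifs with h h' h'
        · exact h4 m m' hmm h'
        · exact hmax _ (Finset.mem_of_mem_erase (h1 m h))
        · omega
        · exact le_rfl

variable {n : ℕ} {Φ : Fan n}

/-- The complex of the admissible supports. -/
def DeltaT (Φ : Fan n) (G : Finset (Fin n → ℤ)) (T : Finset (Fin n)) :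
    Set (Finset (Fin n → ℤ)) :=
  {A | Φ.IsFace (A ∪ G) ∧ ∀ u ∈ A ∪ G, ∀ i, i ∉ T → u i = 0}

lemma exists_part (hSh : Shelling) (hcoh : Φ.Coherent) {G : Finset (Fin n → ℤ)}
    (hG : Φ.IsFace G) {T : Finset (Fin n)} (hGT : cs G ⊆ T) :
    ∃ (F R : ℕ → Finset (Fin n → ℤ)) (t : Finset (Fin n → ℤ) → ℕ),
      Part (DeltaT Φ G T) (((Φ.mxT T).filter (fun τ => G ⊆ τ)).card) F R t ∧
      ∀ m < ((Φ.mxT T).filter (fun τ => G ⊆ τ)).card, F m ∈ Φ.mxT T := by
  classical
  obtain ⟨R, φ, hR, hmain⟩ := hSh n Φ hcoh G hG T hGT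
  set X := (Φ.mxT T).filter (fun τ => G ⊆ τ) with hX
  obtain ⟨F, h1, h2, h3, h4⟩ := exists_enum X φ
  have hGT' : ∀ u ∈ G, ∀ i, i ∉ T → u i = 0 := by
    intro u hu i hi
    by_contra hne
    exact hi (hGT (by
      unfold cs
      rw [Finset.mem_filter]
      exact ⟨Finset.mem_univ _, u, hu, hne⟩))
  -- the type of an admissible support
  have htype : ∀ A ∈ DeltaT Φ G T, ∃ m < X.card, R (F m) ⊆ A ∪ G ∧ A ∪ G ⊆ F m ∧
      ∀ τ' ∈ X, A ∪ G ⊆ τ' → τ' ≠ F m → φ τ' < φ (F m) ∧ ¬ R τ' ⊆ A ∪ G := by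
    intro A hA
    obtain ⟨τ, hτ, hτ1, hτ2, hτ3⟩ := hmain (A ∪ G) hA.1 Finset.subset_union_right hA.2
    obtain ⟨m, hm, rfl⟩ := h2 τ hτ
    exact ⟨m, hm, hτ1, hτ2, hτ3⟩
  let t : Finset (Fin n → ℤ) → ℕ := fun A =>
    if h : A ∈ DeltaT Φ G T then Classical.choose (htype A h) else 0
  have ht : ∀ A (h : A ∈ DeltaT Φ G T), t A < X.card ∧ R (F (t A)) ⊆ A ∪ G ∧ A ∪ G ⊆ F (t A) ∧
      ∀ τ' ∈ X, A ∪ G ⊆ τ' → τ' ≠ F (t A) → φ τ' < φ (F (t A)) ∧ ¬ R τ' ⊆ A ∪ G := by
    intro A h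
    have : t A = Classical.choose (htype A h) := by
      simp only [t]
      rw [dif_pos h]
    rw [this]
    exact Classical.choose_spec (htype A h)
  have hmemX : ∀ m < X.card, F m ∈ Φ.mxT T ∧ G ⊆ F m := fun m hm =>
    Finset.mem_filter.1 (h1 m hm)
  refine ⟨F, fun m => R (F m), t, ?_, fun m hm => (hmemX m hm).1⟩
  constructor
  · rintro A A' hAA' ⟨hf, hT⟩
    have hsub : A ∪ G ⊆ A' ∪ G := Finset.union_subset_union_left hAA'
    exact ⟨Fan.IsFace.subset Φ hf hsub, fun u hu => hT u (hsub hu)⟩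
  · refine ⟨?_, ?_⟩
    · rw [Finset.empty_union]; exact hG
    · rw [Finset.empty_union]; exact hGT'
  · intro m _
    exact (hR (F m)).trans Finset.sdiff_subset
  · intro A hA
    obtain ⟨ht1, ht2, ht3, _⟩ := ht A hA
    refine ⟨ht1, ?_, Finset.subset_union_left.trans ht3⟩
    intro u hu
    have hu1 := Finset.mem_sdiff.1 (hR _ hu)
    rcases Finset.mem_union.1 (ht2 hu) with h | h
    · exact h
    · exact absurd h hu1.2
  · intro m hm A hRA hAF
    obtain ⟨hm1, hm2⟩ := hmemX m hm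
    have hAG : A ∪ G ⊆ F m := Finset.union_subset hAF hm2
    have hf := (mem_mxT_h33.1 hm1)
    have hAΔ : A ∈ DeltaT Φ G T :=
      ⟨Fan.IsFace.subset Φ hf.1 hAG, fun u hu => hf.2.2 u (hAG hu)⟩
    refine ⟨hAΔ, ?_⟩
    obtain ⟨ht1, ht2, ht3, ht4⟩ := ht A hAΔ
    by_contra hne
    have hFne : F m ≠ F (t A) := fun e => hne (h3 _ _ ht1 hm e.symm)
    exact (ht4 (F m) (h1 m hm) hAG hFne).2 (hRA.trans Finset.subset_union_left)
  · intro A A' hAA' hA'
    have hA : A ∈ DeltaT Φ G T := by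
      have hsub : A ∪ G ⊆ A' ∪ G := Finset.union_subset_union_left hAA'
      exact ⟨Fan.IsFace.subset Φ hA'.1 hsub, fun u hu => hA'.2 u (hsub hu)⟩
    obtain ⟨ht1, ht2, ht3, ht4⟩ := ht A hA
    obtain ⟨ht1', ht2', ht3', ht4'⟩ := ht A' hA'
    by_contra hlt
    push Not at hlt
    have hne : F (t A') ≠ F (t A) := by
      intro e
      have := h3 _ _ ht1' ht1 e
      omega
    have h5 := (ht4 (F (t A')) (h1 _ ht1')
      ((Finset.union_subset_union_left hAA').trans ht3') hne).1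
    have h6 := h4 (t A) (t A') hlt.le ht1'
    linarith

/-! ### The linear forms -/

lemma exists_linData (hS : SpanT) {T : Finset (Fin n)} {τ : Finset (Fin n → ℤ)}
    (hτ : τ ∈ Φ.mxT T) : ∃ (e : Fin n → (Fin n → ℤ)) (A A' : (Fin n → ℤ) → (Fin n → ℤ) → ℝ),
      LinData Φ.theta (T : Set (Fin n)) τ e A A' := by
  classical
  obtain ⟨hface, hcard, hT⟩ := mem_mxT_h33.1 hτ
  have hind := mxT_indep hτ
  let E : T ≃ τ := Finset.equivOfCardEq hcard.symm
  let e : Fin n → (Fin n → ℤ) := fun j => if h : j ∈ T then (E ⟨j, h⟩ : Fin n → ℤ) else 0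
  let d : (Fin n → ℤ) → Fin n → ℝ := fun u =>
    if h : u ∈ τ then Pi.single (E.symm ⟨u, h⟩ : Fin n) 1 else 0
  let dj : (Fin n → ℤ) → (Fin n → ℝ) → ℝ := fun u y =>
    if h : u ∈ τ then y (E.symm ⟨u, h⟩ : Fin n) else 0
  have he : ∀ j (h : j ∈ T), e j = E ⟨j, h⟩ := fun j h => by simp only [e]; rw [dif_pos h]
  have hemem : ∀ j ∈ T, e j ∈ τ := fun j h => by rw [he j h]; exact (E ⟨j, h⟩).2
  have hd : ∀ u (h : u ∈ τ), d u = Pi.single (E.symm ⟨u, h⟩ : Fin n) 1 := fun u h => by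
    simp only [d]; rw [dif_pos h]
  have hdj : ∀ u (h : u ∈ τ) y, dj u y = y (E.symm ⟨u, h⟩ : Fin n) := fun u h y => by
    simp only [dj]; rw [dif_pos h]
  have hdje : ∀ j ∈ T, ∀ y, dj (e j) y = y j := by
    intro j hj y
    rw [hdj (e j) (hemem j hj)]
    congr 1
    have : (⟨e j, hemem j hj⟩ : τ) = E ⟨j, hj⟩ := Subtype.ext (he j hj)
    rw [this, Equiv.symm_apply_apply]
  have hdT : ∀ u ∈ τ, ∀ i, i ∉ T → d u i = 0 := by
    intro u hu i hi
    rw [hd u hu]
    exact single_zero (E.symm ⟨u, hu⟩).2 i hi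
  -- products
  have hm1 : ∀ u ∈ τ, ∀ w ∈ τ, ∑ v ∈ τ, dj u (toR v) * crd τ (d w) v = dj u (d w) := by
    intro u hu w hw
    have h1 := sum_crdT hS hτ (hdT w hw)
    have h2 := congrArg (dj u) h1
    rw [← h2]
    simp only [hdj u hu]
    rw [Finset.sum_apply]
    refine Finset.sum_congr rfl fun v _ => ?_
    rw [Pi.smul_apply, smul_eq_mul, mul_comm]
  have hm2 : ∀ u ∈ τ, ∀ w ∈ τ, ∑ v ∈ τ, crd τ (d v) u * dj v (toR w) = crd τ (toR w) u := by
    intro u hu w hw
    have hwT : ∀ i, i ∉ T → toR w i = 0 := by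
      intro i hi
      simp [hT w hw i hi]
    have h1 : toR w = ∑ v ∈ τ, dj v (toR w) • d v := by
      conv_lhs => rw [eq_sum_single hwT]
      rw [← Finset.sum_coe_sort T, ← Finset.sum_coe_sort τ]
      refine Fintype.sum_equiv E _ _ fun j => ?_
      rw [hdj _ (E j).2, hd _ (E j).2]
      simp
    have h2 : crd τ (∑ v ∈ τ, dj v (toR w) • d v) u = ∑ v ∈ τ, dj v (toR w) * crd τ (d v) u := by
      refine crd_eq hind (c := fun u => ∑ v ∈ τ, dj v (toR w) * crd τ (d v) u) ?_ hu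
      simp only [Finset.sum_smul]
      rw [Finset.sum_comm]
      refine Finset.sum_congr rfl fun v hv => ?_
      simp only [mul_smul]
      rw [← Finset.smul_sum, sum_crdT hS hτ (hdT v hv)]
    rw [← h1] at h2
    rw [h2]
    exact Finset.sum_congr rfl fun v _ => mul_comm _ _
  refine ⟨e, fun u v => dj u (toR v), fun u v => crd τ (d v) u, ?_⟩
  constructor
  · intro j hj
    exact hemem j (Finset.mem_coe.1 hj)
  · intro j hj j' hj' hjj
    have hj1 := Finset.mem_coe.1 hj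
    have hj2 := Finset.mem_coe.1 hj'
    rw [he j hj1, he j' hj2] at hjj
    have := E.injective (Subtype.ext hjj)
    exact congrArg Subtype.val this
  · intro u hu
    refine ⟨(E.symm ⟨u, hu⟩ : Fin n), (E.symm ⟨u, hu⟩).2, ?_⟩
    rw [he _ (E.symm ⟨u, hu⟩).2]
    simp
  · intro j hj
    have hj' := Finset.mem_coe.1 hj
    have h1 : ∑ v ∈ τ, MvPolynomial.C (dj (e j) (toR v)) * MvPolynomial.X v =
        ∑ v ∈ τ, (MvPolynomial.C (v j : ℝ) * MvPolynomial.X v : MvPolynomial (Fin n → ℤ) ℝ) := by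
      refine Finset.sum_congr rfl fun v _ => ?_
      rw [hdje j hj', toR_apply]
    rw [h1]
    unfold Fan.theta
    rw [← Finset.sum_sdiff (Fan.IsFace.subset_vert Φ hface), add_sub_cancel_right]
    refine sum_mem fun v hv => ?_
    refine Ideal.mul_mem_left _ _ ?_
    rw [pF_eq]
    exact Ideal.subset_span ⟨v, (Finset.mem_sdiff.1 hv).2, rfl⟩
  · intro j hj
    have hj' : j ∉ T := fun h => hj (Finset.mem_coe.2 h)
    unfold Fan.theta
    refine sum_mem fun v _ => ?_
    by_cases hv : v ∈ τ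
    · rw [hT v hv j hj', Int.cast_zero, MvPolynomial.C_0, zero_mul]
      exact zero_mem _
    · refine Ideal.mul_mem_left _ _ ?_
      rw [pF_eq]
      exact Ideal.subset_span ⟨v, hv, rfl⟩
  · intro u hu w hw hne
    rw [hm1 u hu w hw, hdj u hu, hd w hw]
    have h1 : (E.symm ⟨u, hu⟩ : Fin n) ≠ (E.symm ⟨w, hw⟩ : Fin n) := by
      intro h
      have h2 := E.symm.injective (Subtype.ext h)
      exact hne (congrArg Subtype.val h2)
    simp [h1]
  · intro u hu
    rw [hm1 u hu u hu, hdj u hu, hd u hu]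
    simp
  · intro u hu w hw hne
    rw [hm2 u hu w hw, crd_toR hind hw]
    simp [hne]
  · intro u hu
    rw [hm2 u hu u hu, crd_toR hind hu]
    simp

/-! ### Identification of the ideals -/

lemma bad_eq (G : Finset (Fin n → ℤ)) : Φ.bad G = SI ℝ {A | ¬ Φ.IsFace (A ∪ G)} := by
  classical
  apply le_antisymm
  · unfold Fan.bad
    rw [Ideal.span_le]
    rintro _ ⟨m, hm, rfl⟩
    exact monomial_mem_SI ⟨m.support, hm, subset_rfl⟩ 1
  · intro p hp
    rw [p.as_sum]
    refine sum_mem fun m hm => ?_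
    obtain ⟨A, hA, hA'⟩ := hp m hm
    have h1 : ¬ Φ.IsFace (m.support ∪ G) := fun h =>
      hA (Fan.IsFace.subset Φ h (Finset.union_subset_union_left hA'))
    have h2 : MvPolynomial.monomial m (MvPolynomial.coeff m p) =
        MvPolynomial.C (MvPolynomial.coeff m p) * MvPolynomial.monomial m 1 := by
      rw [MvPolynomial.C_mul_monomial, mul_one]
    rw [h2]
    exact Ideal.mul_mem_left _ _ (Ideal.subset_span ⟨m, h1, rfl⟩)

lemma coordIdeal_eq (i : Fin n) :
    coordIdeal i = SI ℝ {A : Finset (Fin n → ℤ) | ∃ u, u i ≠ 0 ∧ A = {u}} := by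
  classical
  have h0 : (coordIdeal i : Ideal (MvPolynomial (Fin n → ℤ) ℝ)) = vI ℝ {u | u i ≠ 0} := by
    unfold coordIdeal vI
    congr 1
    ext p
    constructor
    · rintro ⟨u, hu, rfl⟩
      exact ⟨u, hu, rfl⟩
    · rintro ⟨u, hu, rfl⟩
      exact ⟨u, hu, rfl⟩
  rw [h0]
  ext p
  rw [mem_vI, mem_SI]
  apply forall_congr'
  intro m
  apply imp_congr_right
  intro _
  constructor
  · rintro ⟨u, hu, hu'⟩
    exact ⟨{u}, ⟨u, hu, rfl⟩, Finset.singleton_subset_iff.2 (Finsupp.mem_support_iff.2 hu')⟩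
  · rintro ⟨A, ⟨u, hu, rfl⟩, hA⟩
    exact ⟨u, hu, Finsupp.mem_support_iff.1 (hA (Finset.mem_singleton_self _))⟩

lemma theta_mem_coordIdeal (i : Fin n) : Φ.theta i ∈ coordIdeal i := by
  unfold Fan.theta
  refine sum_mem fun u _ => ?_
  by_cases hu : u i = 0
  · rw [hu, Int.cast_zero, MvPolynomial.C_0, zero_mul]
    exact zero_mem _
  · exact Ideal.mul_mem_left _ _ (Ideal.subset_span ⟨u, hu, rfl⟩)

lemma base_eq {G : Finset (Fin n → ℤ)} {S : Finset (Fin n)} (hSG : Disjoint S (cs G)) :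
    (Φ.bad G ⊔ ⨆ l ∈ S, coordIdeal l) = SI ℝ (DeltaT Φ G Sᶜ)ᶜ := by
  classical
  have h1 : (⨆ l ∈ S, coordIdeal l : Ideal (MvPolynomial (Fin n → ℤ) ℝ)) =
      SI ℝ (⋃ l ∈ S, {A : Finset (Fin n → ℤ) | ∃ u, u l ≠ 0 ∧ A = {u}}) := by
    rw [SI_biUnion]
    refine iSup_congr fun l => iSup_congr fun _ => ?_
    exact coordIdeal_eq l
  rw [h1, bad_eq, ← SI_union]
  have hGS : ∀ u ∈ G, ∀ i ∈ S, u i = 0 := by
    intro u hu i hi
    by_contra hne
    exact (Finset.disjoint_left.1 hSG hi) (by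
      unfold cs
      rw [Finset.mem_filter]
      exact ⟨Finset.mem_univ _, u, hu, hne⟩)
  ext p
  rw [mem_SI, mem_SI]
  apply forall_congr'
  intro m
  apply imp_congr_right
  intro _
  constructor
  · rintro ⟨A, hA, hA'⟩
    rcases hA with hA | hA
    · exact ⟨A, fun h => hA h.1, hA'⟩
    · simp only [Set.mem_iUnion] at hA
      obtain ⟨l, hl, u, hu, rfl⟩ := hA
      refine ⟨{u}, fun h => hu ?_, hA'⟩
      exact h.2 u (by simp) l (by simpa using hl)
  · rintro ⟨A, hA, hA'⟩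
    by_cases hf : Φ.IsFace (A ∪ G)
    · have h2 : ∃ u ∈ A, ∃ i ∈ S, u i ≠ 0 := by
        by_contra hcon
        push Not at hcon
        apply hA
        refine ⟨hf, fun u hu i hi => ?_⟩
        have hiS : i ∈ S := by simpa using hi
        rcases Finset.mem_union.1 hu with h | h
        · exact hcon u h i hiS
        · exact hGS u h i hiS
      obtain ⟨u, hu, i, hi, hne⟩ := h2
      refine ⟨{u}, Or.inr ?_, (Finset.singleton_subset_iff.2 hu).trans hA'⟩
      simp only [Set.mem_iUnion]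
      exact ⟨i, hi, u, hne, rfl⟩
    · exact ⟨A, Or.inl hf, hA'⟩

lemma Q_eq' (G : Finset (Fin n → ℤ)) (r : ℕ) (S : Finset (Fin n)) :
    Φ.Q G r S = Q (Φ.bad G) coordIdeal Φ.theta r S := by
  unfold Fan.Q Q
  rw [Finset.sup_eq_iSup]

theorem regDim (hS : SpanT) (hSh : Shelling) : RegDim := by
  classical
  intro n Φ hcoh G hG S hSG
  have hGT : cs G ⊆ Sᶜ := by
    intro i hi
    rw [Finset.mem_compl]
    exact fun h => Finset.disjoint_left.1 hSG h hi
  obtain ⟨F, R, t, hpart, hF⟩ := exists_part hSh hcoh hG hGT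
  set N := ((Φ.mxT Sᶜ).filter (fun τ => G ⊆ τ)).card with hN
  have hlin : ∀ m < N, ∃ (e : Fin n → (Fin n → ℤ)) (A A' : (Fin n → ℤ) → (Fin n → ℤ) → ℝ),
      LinData Φ.theta ((Sᶜ : Finset (Fin n)) : Set (Fin n)) (F m) e A A' :=
    fun m hm => exists_linData hS (hF m hm)
  have hQ : ∀ r, Φ.Q G r S = chain ℝ (DeltaT Φ G Sᶜ) R 0 ⊔ TH Φ.theta r := by
    intro r
    rw [Q_eq', Q_eq, chain_zero, base_eq hSG]
  have hT0 : ∀ j ∉ ((Sᶜ : Finset (Fin n)) : Set (Fin n)), ∀ m,
      Φ.theta j ∈ chain ℝ (DeltaT Φ G Sᶜ) R m := by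
    intro j hj m
    have hj' : j ∈ S := by simpa using hj
    have h1 : Φ.theta j ∈ (Φ.bad G ⊔ ⨆ l ∈ S, coordIdeal l) :=
      Ideal.mem_sup_right ((le_biSup (f := fun l => coordIdeal l) hj') (theta_mem_coordIdeal j))
    rw [base_eq hSG] at h1
    exact (SI_mono Set.subset_union_left) h1
  have hreg := shell_reg (θ := Φ.theta) (N := N) (J := chain ℝ (DeltaT Φ G Sᶜ) R)
    (R := fun m => sqf ℝ (R m)) (p := fun m => pF ℝ (F m))
    (T := ((Sᶜ : Finset (Fin n)) : Set (Fin n)))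
    (fun m _ => chain_succ m) (fun m hm w => chain_colon hpart hm w) (chain_top hpart) hT0
    (fun m hm => by
      obtain ⟨e, A, A', h⟩ := hlin m hm
      exact linreg h) N 0 (by omega)
  have hdim := shell_dim (k := ℝ) (θ := Φ.theta) (N := N) (J := chain ℝ (DeltaT Φ G Sᶜ) R)
    (R := fun m => sqf ℝ (R m)) (p := fun m => pF ℝ (F m))
    (T := ((Sᶜ : Finset (Fin n)) : Set (Fin n)))
    (fun m _ => chain_succ m) (fun m hm w => chain_colon hpart hm w) (chain_top hpart) hT0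
    (fun m hm => by
      obtain ⟨e, A, A', h⟩ := hlin m hm
      exact linreg h)
    (fun m hm => by
      obtain ⟨e, A, A', h⟩ := hlin m hm
      exact (lindim h).1)
    (fun m hm => by
      obtain ⟨e, A, A', h⟩ := hlin m hm
      exact (lindim h).2) N 0 (by omega)
  refine ⟨?_, ?_, ?_⟩
  · intro j hj x hx
    rw [hQ] at hx ⊢
    exact hreg j (by simpa using hj) x hx
  · rw [hQ]
    exact hdim.1
  · rw [hQ]
    exact hdim.2

theorem algMain (hS : SpanT) (hC : StarCoverT) : AlgMain := by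
  classical
  intro n Φ hcoh G hG
  have hRD := regDim hS (shelling hS hC)
  set L : Finset (Fin n) := (cs G)ᶜ with hL
  have hdisj : ∀ S ⊆ L, Disjoint S (cs G) := by
    intro S hSL
    rw [Finset.disjoint_left]
    intro i hi hi'
    have := hSL hi
    rw [hL, Finset.mem_compl] at this
    exact this hi'
  have key := distrib_lemma (k := ℝ) (P := MvPolynomial (Fin n → ℤ) ℝ) (L := L)
    (B := Φ.bad G) (I := coordIdeal) (θ := Φ.theta)
    (fun l _ => Ideal.mem_sup_right (theta_mem_coordIdeal l))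
    (fun j S hSL hj x hx => by
      rw [← Q_eq'] at hx ⊢
      exact (hRD n Φ hcoh G hG S (hdisj S hSL)).1 j hj x hx)
    (by
      intro S J _ _ _ a ha
      have h1 : Q (Φ.bad G) coordIdeal Φ.theta 0 S =
          SI ℝ ({A | ¬ Φ.IsFace (A ∪ G)} ∪
            ⋃ l ∈ S, {A : Finset (Fin n → ℤ) | ∃ u, u l ≠ 0 ∧ A = {u}}) := by
        rw [Q_zero, SI_union, SI_biUnion, bad_eq]
        congr 1
        refine iSup_congr fun l => iSup_congr fun _ => ?_
        exact coordIdeal_eq l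
      rw [h1] at ha ⊢
      have := SI_crt (k := ℝ) J ({A | ¬ Φ.IsFace (A ∪ G)} ∪
            ⋃ l ∈ S, {A : Finset (Fin n → ℤ) | ∃ u, u l ≠ 0 ∧ A = {u}})
        (fun i => {A : Finset (Fin n → ℤ) | ∃ u, u i ≠ 0 ∧ A = {u}}) a (by
          intro i hi i' hi' hne
          have := ha i hi i' hi' hne
          rwa [coordIdeal_eq, coordIdeal_eq] at this)
      obtain ⟨x, hx⟩ := this
      refine ⟨x, fun i hi => ?_⟩
      rw [coordIdeal_eq]
      exact hx i hi)
    (fun S hSL => by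
      rw [← Q_eq']
      exact (hRD n Φ hcoh G hG S (hdisj S hSL)).2.1)
  have hsum : ∑ S ∈ L.powerset, (-1 : ℤ) ^ S.card *
      (Module.finrank ℝ (MvPolynomial (Fin n → ℤ) ℝ ⧸ Q (Φ.bad G) coordIdeal Φ.theta n S) : ℤ) =
      Φ.ell G := by
    unfold Fan.ell
    refine Finset.sum_bij' (fun S _ => Sᶜ) (fun T _ => Tᶜ) ?_ ?_ ?_ ?_ ?_
    · intro S hS'
      rw [Finset.mem_filter]
      refine ⟨Finset.mem_univ _, ?_⟩
      rw [Finset.mem_powerset, hL] at hS'
      intro i hi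
      rw [Finset.mem_compl]
      intro h
      have := hS' h
      rw [Finset.mem_compl] at this
      exact this hi
    · intro T hT'
      rw [Finset.mem_filter] at hT'
      rw [Finset.mem_powerset, hL]
      exact Finset.compl_subset_compl.2 hT'.2
    · intro S _
      exact compl_compl S
    · intro T _
      exact compl_compl T
    · intro S hS'
      rw [Finset.mem_powerset] at hS'
      rw [← Q_eq', (hRD n Φ hcoh G hG S (hdisj S hS')).2.2]
      have h1 : n - Sᶜ.card = S.card := by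
        rw [Finset.card_compl, Fintype.card_fin]
        have := Finset.card_le_univ S
        rw [Fintype.card_fin] at this
        omega
      rw [h1]
  rw [hsum] at key
  refine ⟨key.1, fun h0 m hm => ?_⟩
  have h1 := key.2 h0
  have h2 : MvPolynomial.monomial m (1 : ℝ) ∈ (⨅ i ∈ L, Φ.bad G ⊔ coordIdeal i) := by
    rw [Submodule.mem_iInf]
    intro i
    rw [Submodule.mem_iInf]
    intro hi
    rw [hL, Finset.mem_compl] at hi
    obtain ⟨u, hu, hu'⟩ := hm i hi
    apply Ideal.mem_sup_right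
    rw [coordIdeal_eq]
    have h9 : MvPolynomial.monomial m (1 : ℝ) ∈
        SI ℝ {A : Finset (Fin n → ℤ) | ∃ v, v i ≠ 0 ∧ A = {v}} := by
      refine monomial_mem_SI ?_ 1
      exact ⟨{u}, ⟨u, hu', rfl⟩, Finset.singleton_subset_iff.2 hu⟩
    exact h9
  have h3 := h1 h2
  have h4 : Q (Φ.bad G) coordIdeal Φ.theta n ∅ = Φ.bad G ⊔ Ideal.span (Set.range Φ.theta) := by
    unfold Q
    have h5 : {x | ∃ j : Fin n, (j : ℕ) < n ∧ x = Φ.theta j} = Set.range Φ.theta := by
      ext x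
      constructor
      · rintro ⟨j, _, rfl⟩
        exact ⟨j, rfl⟩
      · rintro ⟨j, rfl⟩
        exact ⟨j, j.2, rfl⟩
    rw [h5]
    simp
  rwa [h4] at h3

end Mono
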