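import Pool.Agent.Helper33.Mono.BoxC

/-! The box count (5.1). -/

namespace Mono.H33

open Finset

variable {n : ℕ}

/-- The half-open box with prescribed `ψ` modulo `ℤ`. -/
def Box (Z τ : Finset (Fin n → ℤ)) (a : ℝ) : Set (Fin n → ℤ) :=
  {b | ∃ c : (Fin n → ℤ) → ℝ, (∀ u ∈ τ, 0 ≤ c u ∧ c u < 1) ∧
    toR b = ∑ u ∈ τ, c u • toR u ∧ ∃ z : ℤ, ∑ u ∈ τ \ Z, c u - a = z}

/-- The open box. -/
def OBox (Z : Finset (Fin n → ℤ)) (a : ℝ) (G : Finset (Fin n → ℤ)) : Set (Fin n → ℤ) :=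
  {b | ∃ c : (Fin n → ℤ) → ℝ, (∀ u ∈ G, 0 < c u ∧ c u < 1) ∧
    toR b = ∑ u ∈ G, c u • toR u ∧ ∃ z : ℤ, ∑ u ∈ G \ Z, c u - a = z}

theorem lstar_eq (Z : Finset (Fin n → ℤ)) (a : ℝ) (G : Finset (Fin n → ℤ)) :
    lstar Z a G = Nat.card (OBox Z a G) := rfl

/-- Extension by zero. -/
theorem obox_ext {Z τ G : Finset (Fin n → ℤ)} (hG : G ⊆ τ) {a : ℝ} {b : Fin n → ℤ}
    (hb : b ∈ OBox Z a G) : ∃ c : (Fin n → ℤ) → ℝ, (∀ u ∈ τ, 0 ≤ c u ∧ c u < 1) ∧
    (∀ u ∈ τ, c u ≠ 0 ↔ u ∈ G) ∧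
    toR b = ∑ u ∈ τ, c u • toR u ∧ ∃ z : ℤ, ∑ u ∈ τ \ Z, c u - a = z := by
  classical
  obtain ⟨c, hc, hbc, z, hz⟩ := hb
  refine ⟨fun u => if u ∈ G then c u else 0, ?_, ?_, ?_, z, ?_⟩
  · intro u _
    by_cases hu : u ∈ G
    · simp only [hu, if_true]
      exact ⟨(hc u hu).1.le, (hc u hu).2⟩
    · simp [hu]
  · intro u _
    by_cases hu : u ∈ G
    · simp [hu, (hc u hu).1.ne']
    · simp [hu]
  · rw [hbc]
    rw [← Finset.sum_subset hG (f := fun u => (if u ∈ G then c u else 0) • toR u)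
      (fun u _ hu => by simp [hu])]
    exact Finset.sum_congr rfl fun u hu => by simp [hu]
  · rw [← hz]
    congr 1
    rw [← Finset.sum_subset (Finset.sdiff_subset_sdiff hG (Finset.Subset.refl Z))
      (f := fun u => (if u ∈ G then c u else 0)) (fun u hu hu' => by
        have : u ∉ G := fun h => hu' (Finset.mem_sdiff.2 ⟨h, (Finset.mem_sdiff.1 hu).2⟩)
        simp [this])]
    exact Finset.sum_congr rfl fun u hu => by simp [(Finset.mem_sdiff.1 hu).1]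

theorem sum_lstar {Z τ : Finset (Fin n → ℤ)} (hτ : Indep τ) (a : ℝ) (hfin : (Box Z τ a).Finite) :
    ∑ G ∈ τ.powerset, lstar Z a G = Nat.card (Box Z τ a) := by
  classical
  haveI : Finite (Box Z τ a) := hfin
  have hsub : ∀ G : τ.powerset, OBox Z a (G : Finset (Fin n → ℤ)) ⊆ Box Z τ a := by
    intro G b hb
    obtain ⟨c, hc, _, h2, h3⟩ := obox_ext (Finset.mem_powerset.1 G.2) hb
    exact ⟨c, hc, h2, h3⟩
  haveI : ∀ G : τ.powerset, Finite (OBox Z a (G : Finset (Fin n → ℤ))) := fun G =>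
    (hfin.subset (hsub G))
  rw [← Finset.sum_coe_sort τ.powerset]
  simp only [lstar_eq]
  rw [← Nat.card_sigma]
  refine Nat.card_congr (Equiv.ofBijective
    (fun p : (Σ G : τ.powerset, OBox Z a (G : Finset (Fin n → ℤ))) =>
      (⟨p.2.1, hsub p.1 p.2.2⟩ : Box Z τ a)) ⟨?_, ?_⟩)
  · rintro ⟨⟨G, hG⟩, ⟨b, hb⟩⟩ ⟨⟨G', hG'⟩, ⟨b', hb'⟩⟩ h
    have hbb : b = b' := by
      have := congrArg Subtype.val h
      exact this
    subst hbb
    obtain ⟨c, _, hc, h2, _⟩ := obox_ext (Finset.mem_powerset.1 hG) hb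
    obtain ⟨c', _, hc', h2', _⟩ := obox_ext (Finset.mem_powerset.1 hG') hb'
    have h3 := hτ.coeff_eq (h2.symm.trans h2')
    have hGG : G = G' := by
      ext u
      constructor
      · intro hu
        have hu' := Finset.mem_powerset.1 hG hu
        rw [← hc' u hu', ← h3 u hu', hc u hu']
        exact hu
      · intro hu
        have hu' := Finset.mem_powerset.1 hG' hu
        rw [← hc u hu', h3 u hu', hc' u hu']
        exact hu
    subst hGG
    rfl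
  · rintro ⟨b, c, hc, h2, z, hz⟩
    refine ⟨⟨⟨τ.filter (fun u => c u ≠ 0), Finset.mem_powerset.2 (Finset.filter_subset _ _)⟩,
      ⟨b, c, ?_, ?_, z, ?_⟩⟩, rfl⟩
    · intro u hu
      rw [Finset.mem_filter] at hu
      exact ⟨lt_of_le_of_ne (hc u hu.1).1 hu.2.symm, (hc u hu.1).2⟩
    · rw [h2, Finset.sum_filter]
      refine Finset.sum_congr rfl fun u _ => ?_
      by_cases hu : c u = 0
      · simp [hu]
      · simp [hu]
    · rw [← hz]
      congr 1
      refine Finset.sum_subset (Finset.sdiff_subset_sdiff (Finset.filter_subset _ _)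
        (Finset.Subset.refl Z)) (fun u hu hu' => ?_)
      by_contra hcon
      exact hu' (Finset.mem_sdiff.2 ⟨Finset.mem_filter.2 ⟨(Finset.mem_sdiff.1 hu).1, hcon⟩,
        (Finset.mem_sdiff.1 hu).2⟩)

section

variable {Z τ : Finset (Fin n → ℤ)} {l : (Fin n → ℝ) →ₗ[ℝ] ℝ}
  (hl : ∀ u ∈ τ, l (toR u) = if u ∈ Z then 0 else 1)

/-- The homomorphism `Ψ`. -/
def toRHom : (Fin n → ℤ) →+ (Fin n → ℝ) where
  toFun := toR
  map_zero' := toR_zero
  map_add' := toR_add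

/-- The additive map `x ↦ l (toR x)`. -/
def psiHom (l : (Fin n → ℝ) →ₗ[ℝ] ℝ) : (Fin n → ℤ) →+ ℝ := l.toAddMonoidHom.comp toRHom

theorem psiHom_apply (x : Fin n → ℤ) : psiHom l x = l (toR x) := rfl

include hl

theorem psi_comb {b : Fin n → ℤ} {c : (Fin n → ℤ) → ℝ} (h : toR b = ∑ u ∈ τ, c u • toR u) :
    psiHom l b = ∑ u ∈ τ \ Z, c u := by
  classical
  rw [psiHom_apply, h, map_sum]
  have h2 : ∑ u ∈ τ, l (c u • toR u) = ∑ u ∈ τ, if u ∈ Z then 0 else c u := by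
    refine Finset.sum_congr rfl fun u hu => ?_
    rw [map_smul, hl u hu, smul_eq_mul]
    split_ifs <;> simp
  rw [h2, Finset.sum_ite]
  simp only [Finset.sum_const_zero, zero_add]
  refine Finset.sum_congr ?_ fun _ _ => rfl
  ext u
  simp

theorem psiHom_one : ∀ u ∈ τ \ Z, psiHom l u = 1 := by
  intro u hu
  rw [Finset.mem_sdiff] at hu
  rw [psiHom_apply, hl u hu.1, if_neg hu.2]

theorem psiHom_zero : ∀ u ∈ τ ∩ Z, psiHom l u = 0 := by
  intro u hu
  rw [Finset.mem_inter] at hu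
  rw [psiHom_apply, hl u hu.1, if_pos hu.2]

theorem mem_box_iff (a : ℝ) (b : Fin n → ℤ) : b ∈ Box Z τ a ↔
    ∃ c : (Fin n → ℤ) → ℝ, (∀ u ∈ τ, 0 ≤ c u ∧ c u < 1) ∧
    toR b = ∑ u ∈ τ, c u • toR u ∧ ∃ z : ℤ, psiHom l b - a = z := by
  constructor
  · rintro ⟨c, hc, h2, z, hz⟩
    exact ⟨c, hc, h2, z, by rw [psi_comb hl h2]; exact hz⟩
  · rintro ⟨c, hc, h2, z, hz⟩
    exact ⟨c, hc, h2, z, by rw [← psi_comb hl h2]; exact hz⟩

theorem card_box (hτ : Indep τ) {u₀ : Fin n → ℤ} (hu₀ : u₀ ∈ τ \ Z) (a : ℝ)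
    {x₀ : Fin n → ℤ} (hx₀ : x₀ ∈ sat (τ : Set (Fin n → ℤ))) {z₀ : ℤ}
    (hz₀ : psiHom l x₀ - a = z₀) :
    Nat.card (Box Z τ a) = volZ Z τ := by
  classical
  rw [← relIndex_KK (psiHom_one hl) (psiHom_zero hl) hu₀]
  set N := AddSubgroup.closure (τ : Set (Fin n → ℤ)) with hN
  set K := KK τ (psiHom l) with hK
  change _ = (N.addSubgroupOf K).index
  rw [AddSubgroup.index]
  have hK' : ∀ b ∈ Box Z τ a, b - x₀ ∈ K := by
    intro b hb
    obtain ⟨c, hc, h2, z, hz⟩ := (mem_box_iff hl a b).1 hb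
    rw [hK, mem_KK]
    refine ⟨AddSubgroup.sub_mem _ (mem_sat_of_comb τ b c h2) hx₀, z - z₀, ?_⟩
    rw [map_sub]
    push_cast
    linarith
  refine Nat.card_congr (Equiv.ofBijective
    (fun b : Box Z τ a => (QuotientAddGroup.mk (⟨b.1 - x₀, hK' b.1 b.2⟩ : K) :
      K ⧸ N.addSubgroupOf K)) ⟨?_, ?_⟩)
  · rintro ⟨b, hb⟩ ⟨b', hb'⟩ h
    have h' := QuotientAddGroup.eq.1 h
    rw [AddSubgroup.mem_addSubgroupOf] at h'
    have h3 : -(b - x₀) + (b' - x₀) ∈ N := h'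
    have h4 : b' - b ∈ N := by
      have : -(b - x₀) + (b' - x₀) = b' - b := by abel
      rwa [this] at h3
    obtain ⟨z, hz⟩ := closure_comb τ h4
    obtain ⟨c, hc, h2, _⟩ := hb
    obtain ⟨c', hc', h2', _⟩ := hb'
    have h5 : ∑ u ∈ τ, c' u • toR u = ∑ u ∈ τ, (c u + z u) • toR u := by
      simp only [add_smul]
      rw [Finset.sum_add_distrib, ← h2, ← h2']
      have : ∑ u ∈ τ, (z u : ℝ) • toR u = toR (b' - b) := by
        rw [hz, toR_sum]
        exact Finset.sum_congr rfl fun u _ => (toR_smul _ _).symm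
      rw [this, toR_sub]
      abel
    have h6 := hτ.coeff_eq h5
    have h7 : ∀ u ∈ τ, z u = 0 := by
      intro u hu
      have e := h6 u hu
      have e1 := hc u hu
      have e2 := hc' u hu
      have e3 : (z u : ℝ) < 1 := by linarith
      have e4 : (-1 : ℝ) < (z u : ℝ) := by linarith
      have e5 : z u < 1 := by exact_mod_cast e3
      have e6 : -1 < z u := by exact_mod_cast e4
      omega
    have h8 : b' - b = 0 := by
      rw [hz]
      exact Finset.sum_eq_zero fun u hu => by rw [h7 u hu, zero_smul]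
    have h9 : b = b' := (sub_eq_zero.1 h8).symm
    exact Subtype.ext h9
  · intro y
    obtain ⟨⟨k, hk⟩, rfl⟩ := QuotientAddGroup.mk_surjective y
    have hk' := mem_KK.1 hk
    obtain ⟨hks, z, hz⟩ := hk'
    obtain ⟨c, hc⟩ := sat_comb τ (AddSubgroup.add_mem _ hks hx₀)
    set m : Fin n → ℤ := ∑ u ∈ τ, ⌊c u⌋ • u with hm
    have hmN : m ∈ N := AddSubgroup.sum_mem _ fun u hu =>
      AddSubgroup.zsmul_mem _ (AddSubgroup.subset_closure (by exact_mod_cast hu)) _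
    have hcomb : toR (k + x₀ - m) = ∑ u ∈ τ, (Int.fract (c u)) • toR u := by
      rw [toR_sub, hc, hm, toR_sum, ← Finset.sum_sub_distrib]
      refine Finset.sum_congr rfl fun u _ => ?_
      rw [toR_smul, ← sub_smul]
      rfl
    have hbox : k + x₀ - m ∈ Box Z τ a := by
      rw [mem_box_iff hl]
      obtain ⟨w, hw, _⟩ := closure_dec (psiHom_one hl) (psiHom_zero hl) hu₀ hmN
      refine ⟨fun u => Int.fract (c u), fun u _ => ⟨Int.fract_nonneg _, Int.fract_lt_one _⟩,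
        hcomb, z + z₀ - w, ?_⟩
      rw [map_sub, map_add, hz, hw]
      push_cast
      linarith
    refine ⟨⟨k + x₀ - m, hbox⟩, ?_⟩
    apply QuotientAddGroup.eq.2
    rw [AddSubgroup.mem_addSubgroupOf]
    change -(k + x₀ - m - x₀) + k ∈ N
    have : -(k + x₀ - m - x₀) + k = m := by abel
    rw [this]
    exact hmN

end

/-- D1. -/
theorem boxCount (h : IdxPos) : BoxCount := by
  classical
  intro n Z τ hZ hτ q
  obtain ⟨u₀, hu, hu'⟩ := Finset.not_subset.1 hZ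
  have hu₀ : u₀ ∈ τ \ Z := Finset.mem_sdiff.2 ⟨hu, hu'⟩
  obtain ⟨l, hl⟩ := exists_functional hτ (fun u => if u ∈ Z then 0 else 1)
  have hp := h n (τ : Set (Fin n → ℤ))
  have hiff := exists_psi_iff (psiHom_one hl) (psiHom_zero hl) hp hu₀ q
  by_cases hq : q.den ∣ latDistZ Z τ
  · rw [if_pos hq]
    obtain ⟨x₀, hx₀, z₀, hz₀⟩ := hiff.2 hq
    have hcard := card_box hl hτ hu₀ (q : ℝ) hx₀ hz₀
    rw [sum_lstar hτ _ ?_, hcard]
    apply Set.finite_coe_iff.1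
    apply Nat.finite_of_card_ne_zero
    rw [hcard, volZ_eq]
    exact h n _
  · rw [if_neg hq]
    have hempty : Box Z τ (q : ℝ) = ∅ := by
      rw [Set.eq_empty_iff_forall_notMem]
      intro b hb
      obtain ⟨c, hc, h2, z, hz⟩ := (mem_box_iff hl (q : ℝ) b).1 hb
      exact hq (hiff.1 ⟨b, mem_sat_of_comb τ b c h2, z, hz⟩)
    rw [sum_lstar hτ _ (by rw [hempty]; exact Set.finite_empty), hempty]
    simp

end Mono.H33

/-- D1. -/
theorem Mono.boxCount (h : Mono.IdxPos) : Mono.BoxCount := Mono.H33.boxCount h
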