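import Pool.Agent.Helper20.Mono.GoalsH
import Pool.Agent.Helper33.Mono.AlgMain
import Pool.Agent.Helper33.Mono.BoxCount
import Pool.Agent.Helper33.Mono.ZFormula
import Pool.Agent.Helper22.Mono.A1
import Pool.Agent.Helper22.Mono.B2
import Pool.Agent.Helper22.Mono.EX1
import Pool.Agent.Helper72.Mono.Walls
import Pool.Agent.Helper72.Mono.VolHeight
import Pool.Agent.Helper91.Mono.Idx
import Pool.Agent.Helper42.Mono.KFormula
import Pool.Agent.Helper42.Mono.LimitW
import Pool.Agent.Helper35.Mono.D2
import Pool.Agent.Helper36.Mono.PairVanish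
import Pool.Agent.Helper36.Mono.ZEval
import Pool.Agent.Helper61.Mono.ClassKill
import Pool.Agent.Helper18.Mono.E3
import Pool.Agent.Helper27.Mono.F1
import Pool.Agent.Helper66.Mono.KillZ
import Pool.Agent.Helper97.Mono.Laplace
import Pool.Agent.Helper88.Mono.Dual
import Pool.Agent.Helper30.Mono.SideDual
import Pool.Agent.Helper94.Mono.SideMain
import Pool.Agent.Helper94.Mono.FaceSum
import Pool.Agent.Helper50.Mono.Asm
import Pool.Agent.Helper60.Mono.EX2
import Pool.Agent.Helper71.Mono.ConeGen
import Pool.Agent.Helper68.Mono.NewtonConv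
import Pool.Agent.Helper68.Mono.Pole
import Pool.Agent.Helper40.Mono.DualFan
import Pool.Agent.Helper57.Mono.NvolSum
import Pool.Agent.Helper12.Mono.H5
import Pool.Agent.Helper31.Mono.V1
import Pool.Agent.Helper89.Mono.H1

/-! All packets of the monodromy project coexist. -/
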