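import Pool.Agent.Helper33.Mono.BoxA

/-! Lattice part of the box count (5.1). -/

namespace Mono.H33

open Finset

variable {n : ℕ}

/-- The set whose index is `volZ Z τ`. -/
def edg (Z τ : Finset (Fin n → ℤ)) : Set (Fin n → ℤ) :=
  {x | ∃ u ∈ τ \ Z, ∃ v ∈ τ \ Z, x = u - v} ∪ {x | x ∈ τ ∧ x ∈ Z}

theorem volZ_eq (Z τ : Finset (Fin n → ℤ)) : volZ Z τ = idx (edg Z τ) := rfl

section

variable {Z τ : Finset (Fin n → ℤ)} {Ψ : (Fin n → ℤ) →+ ℝ}
  (h1 : ∀ u ∈ τ \ Z, Ψ u = 1) (h0 : ∀ u ∈ τ ∩ Z, Ψ u = 0)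

include h1 h0

theorem psi_edg {y : Fin n → ℤ} (hy : y ∈ AddSubgroup.closure (edg Z τ)) : Ψ y = 0 := by
  have : AddSubgroup.closure (edg Z τ) ≤ Ψ.ker := by
    rw [AddSubgroup.closure_le]
    rintro x (⟨u, hu, v, hv, rfl⟩ | ⟨hx, hx'⟩)
    · change Ψ (u - v) = 0
      rw [map_sub, h1 u hu, h1 v hv, sub_self]
    · exact h0 x (Finset.mem_inter.2 ⟨hx, hx'⟩)
  exact this hy

theorem psi_sat_edg {y : Fin n → ℤ} (hy : y ∈ sat (edg Z τ)) : Ψ y = 0 := by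
  obtain ⟨k, hk, hy⟩ := hy
  have := psi_edg h1 h0 hy
  rw [map_zsmul, zsmul_eq_mul] at this
  exact (mul_eq_zero.1 this).resolve_left (by exact_mod_cast hk)

theorem closure_dec {u₀ : Fin n → ℤ} (hu₀ : u₀ ∈ τ \ Z) {y : Fin n → ℤ}
    (hy : y ∈ AddSubgroup.closure (τ : Set (Fin n → ℤ))) :
    ∃ a : ℤ, Ψ y = a ∧ y - a • u₀ ∈ AddSubgroup.closure (edg Z τ) := by
  induction hy using AddSubgroup.closure_induction with
  | mem x hx =>
    have hx' : x ∈ τ := by exact_mod_cast hx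
    by_cases hz : x ∈ Z
    · refine ⟨0, ?_, ?_⟩
      · rw [h0 x (Finset.mem_inter.2 ⟨hx', hz⟩)]; simp
      · rw [zero_smul, sub_zero]
        exact AddSubgroup.subset_closure (Or.inr ⟨hx', hz⟩)
    · refine ⟨1, ?_, ?_⟩
      · rw [h1 x (Finset.mem_sdiff.2 ⟨hx', hz⟩)]; simp
      · rw [one_smul]
        exact AddSubgroup.subset_closure
          (Or.inl ⟨x, Finset.mem_sdiff.2 ⟨hx', hz⟩, u₀, hu₀, rfl⟩)
  | zero => exact ⟨0, by simp, by simp⟩
  | add x y _ _ hx hy =>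
    obtain ⟨a, ha, ha'⟩ := hx
    obtain ⟨b, hb, hb'⟩ := hy
    refine ⟨a + b, by rw [map_add, ha, hb]; push_cast; rfl, ?_⟩
    have : x + y - (a + b) • u₀ = (x - a • u₀) + (y - b • u₀) := by
      rw [add_smul]; abel
    rw [this]
    exact AddSubgroup.add_mem _ ha' hb'
  | neg x _ hx =>
    obtain ⟨a, ha, ha'⟩ := hx
    refine ⟨-a, by rw [map_neg, ha]; push_cast; rfl, ?_⟩
    have : -x - (-a) • u₀ = -(x - a • u₀) := by
      rw [neg_smul]; abel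
    rw [this]
    exact AddSubgroup.neg_mem _ ha'

omit h1 h0 in
theorem edg_le : AddSubgroup.closure (edg Z τ) ≤ AddSubgroup.closure (τ : Set (Fin n → ℤ)) := by
  rw [AddSubgroup.closure_le]
  rintro x (⟨u, hu, v, hv, rfl⟩ | ⟨hx, hx'⟩)
  · exact AddSubgroup.sub_mem _
      (AddSubgroup.subset_closure (by exact_mod_cast (Finset.mem_sdiff.1 hu).1))
      (AddSubgroup.subset_closure (by exact_mod_cast (Finset.mem_sdiff.1 hv).1))
  · exact AddSubgroup.subset_closure (by exact_mod_cast hx)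

theorem closure_ker {u₀ : Fin n → ℤ} (hu₀ : u₀ ∈ τ \ Z) {y : Fin n → ℤ}
    (hy : y ∈ AddSubgroup.closure (τ : Set (Fin n → ℤ))) (h : Ψ y = 0) :
    y ∈ AddSubgroup.closure (edg Z τ) := by
  obtain ⟨a, ha, ha'⟩ := closure_dec h1 h0 hu₀ hy
  have : a = 0 := by
    rw [h] at ha
    exact_mod_cast ha.symm
  rw [this, zero_smul, sub_zero] at ha'
  exact ha'

theorem inf_eq' {u₀ : Fin n → ℤ} (hu₀ : u₀ ∈ τ \ Z) :
    AddSubgroup.closure (τ : Set (Fin n → ℤ)) ⊓ sat (edg Z τ) =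
      AddSubgroup.closure (edg Z τ) := by
  apply le_antisymm
  · rintro y ⟨hy, hy'⟩
    exact closure_ker h1 h0 hu₀ hy (psi_sat_edg h1 h0 hy')
  · exact le_inf edg_le (closure_le_sat _)

variable (Z τ Ψ) in
/-- Elements of `sat τ` with integral value of `Ψ`. -/
def KK : AddSubgroup (Fin n → ℤ) := sat (τ : Set (Fin n → ℤ)) ⊓
  (AddSubgroup.zmultiples (1 : ℝ)).comap Ψ

omit h1 h0 in
theorem mem_KK {x : Fin n → ℤ} : x ∈ KK τ Ψ ↔ x ∈ sat (τ : Set (Fin n → ℤ)) ∧ ∃ z : ℤ, Ψ x = z := by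
  unfold KK
  rw [AddSubgroup.mem_inf, AddSubgroup.mem_comap, AddSubgroup.mem_zmultiples_iff]
  constructor
  · rintro ⟨h, z, hz⟩
    exact ⟨h, z, by rw [← hz]; simp⟩
  · rintro ⟨h, z, hz⟩
    exact ⟨h, z, by rw [hz]; simp⟩

theorem sup_eq' {u₀ : Fin n → ℤ} (hu₀ : u₀ ∈ τ \ Z) :
    sat (edg Z τ) ⊔ AddSubgroup.closure (τ : Set (Fin n → ℤ)) = KK τ Ψ := by
  apply le_antisymm
  · apply sup_le
    · intro x hx
      rw [mem_KK]
      refine ⟨?_, 0, by rw [psi_sat_edg h1 h0 hx]; simp⟩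
      obtain ⟨k, hk, hx⟩ := hx
      exact ⟨k, hk, edg_le hx⟩
    · intro x hx
      rw [mem_KK]
      obtain ⟨a, ha, _⟩ := closure_dec h1 h0 hu₀ hx
      exact ⟨closure_le_sat _ hx, a, ha⟩
  · intro x hx
    rw [mem_KK] at hx
    obtain ⟨hx, z, hz⟩ := hx
    have hu : u₀ ∈ AddSubgroup.closure (τ : Set (Fin n → ℤ)) :=
      AddSubgroup.subset_closure (by exact_mod_cast (Finset.mem_sdiff.1 hu₀).1)
    have h2 : x - z • u₀ ∈ sat (edg Z τ) := by
      obtain ⟨k, hk, hk'⟩ := hx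
      refine ⟨k, hk, closure_ker h1 h0 hu₀ ?_ ?_⟩
      · rw [smul_sub]
        exact AddSubgroup.sub_mem _ hk' (AddSubgroup.zsmul_mem _ (AddSubgroup.zsmul_mem _ hu _) _)
      · rw [map_zsmul, map_sub, map_zsmul, h1 u₀ hu₀, hz]
        simp
    have h3 : x = (x - z • u₀) + z • u₀ := by abel
    rw [h3]
    exact AddSubgroup.add_mem_sup h2 (AddSubgroup.zsmul_mem _ hu _)

theorem relIndex_KK {u₀ : Fin n → ℤ} (hu₀ : u₀ ∈ τ \ Z) :
    (AddSubgroup.closure (τ : Set (Fin n → ℤ))).relIndex (KK τ Ψ) = volZ Z τ := by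
  rw [← sup_eq' h1 h0 hu₀, AddSubgroup.relIndex_sup_right, volZ_eq, idx,
    ← inf_eq' h1 h0 hu₀, AddSubgroup.inf_relIndex_right]

end

/-- A saturated subgroup is a direct summand: extension of integer valued maps. -/
theorem ext_sat (B : Set (Fin n → ℤ)) (Ψ : (Fin n → ℤ) →+ ℝ)
    (hf : ∀ x ∈ sat B, ∃ z : ℤ, Ψ x = z) :
    ∃ k : Fin n → ℤ, ∀ x ∈ sat B, ((k ⬝ᵥ x : ℤ) : ℝ) = Ψ x := by
  classical
  set M : Submodule ℤ (Fin n → ℤ) := (sat B).toIntSubmodule with hM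
  have hmem : ∀ x, x ∈ M ↔ x ∈ sat B := fun x => Iff.rfl
  haveI : Module.IsTorsionFree ℤ ((Fin n → ℤ) ⧸ M) := by
    apply Module.IsTorsionFree.of_smul_eq_zero
    intro r m hrm
    by_contra hcon
    push Not at hcon
    obtain ⟨hr, hm⟩ := hcon
    obtain ⟨x, rfl⟩ := Submodule.mkQ_surjective M m
    apply hm
    rw [← map_smul, Submodule.mkQ_apply, Submodule.Quotient.mk_eq_zero, hmem] at hrm
    rw [Submodule.mkQ_apply, Submodule.Quotient.mk_eq_zero, hmem]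
    obtain ⟨k, hk, hk'⟩ := hrm
    exact ⟨k * r, mul_ne_zero hk hr, by rw [mul_smul]; exact hk'⟩
  obtain ⟨s, hs⟩ := Module.projective_lifting_property M.mkQ LinearMap.id
    (Submodule.mkQ_surjective M)
  have hs' : ∀ x : Fin n → ℤ, x - s (M.mkQ x) ∈ M := by
    intro x
    rw [← Submodule.Quotient.mk_eq_zero, ← Submodule.mkQ_apply, map_sub]
    have := LinearMap.congr_fun hs (M.mkQ x)
    rw [LinearMap.comp_apply, LinearMap.id_apply] at this
    rw [this, sub_self]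
  have hs0 : ∀ x ∈ M, x - s (M.mkQ x) = x := by
    intro x hx
    have : M.mkQ x = 0 := by
      rw [Submodule.mkQ_apply, Submodule.Quotient.mk_eq_zero]
      exact hx
    rw [this, map_zero, sub_zero]
  have hz : ∀ x : Fin n → ℤ, ∃ z : ℤ, Ψ (x - s (M.mkQ x)) = z := fun x => hf _ (hs' x)
  choose g hg using hz
  refine ⟨fun i => g (Pi.single i 1), fun x hx => ?_⟩
  have h2 : Ψ x = Ψ (x - s (M.mkQ x)) := by rw [hs0 x hx]
  rw [h2]
  have h3 : x = ∑ i, x i • (Pi.single i (1 : ℤ) : Fin n → ℤ) := by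
    funext j
    simp [Finset.sum_apply, Pi.single_apply]
  have h4 : ∀ y : Fin n → ℤ, Ψ (y - s (M.mkQ y)) =
      (Ψ.comp (LinearMap.toAddMonoidHom (LinearMap.id - s ∘ₗ M.mkQ))) y := fun y => rfl
  rw [h4]
  conv_rhs => rw [h3]
  rw [map_sum]
  simp only [map_zsmul]
  rw [dotProduct]
  push_cast
  refine Finset.sum_congr rfl fun i _ => ?_
  rw [← h4, hg]
  simp [mul_comm]

end Mono.H33
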