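import Pool.Agent.Helper33.Mono.BoxB

/-! Lattice distance and the values of `Ψ`. -/

namespace Mono.H33

open Finset

variable {n : ℕ}

section

variable {Z τ : Finset (Fin n → ℤ)} {Ψ : (Fin n → ℤ) →+ ℝ}
  (h1 : ∀ u ∈ τ \ Z, Ψ u = 1) (h0 : ∀ u ∈ τ ∩ Z, Ψ u = 0)

include h1 h0

theorem mem_A_iff (N : ℕ) :
    (∃ k : Fin n → ℤ, (∀ u ∈ τ \ Z, k ⬝ᵥ u = (N : ℤ)) ∧ ∀ u ∈ τ ∩ Z, k ⬝ᵥ u = 0) ↔
    ∀ x ∈ sat (τ : Set (Fin n → ℤ)), ∃ z : ℤ, (N : ℝ) * Ψ x = z := by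
  constructor
  · rintro ⟨k, hk1, hk0⟩ x ⟨j, hj, hx⟩
    have key : ∀ y ∈ AddSubgroup.closure (τ : Set (Fin n → ℤ)), ((k ⬝ᵥ y : ℤ) : ℝ) = N * Ψ y := by
      intro y hy
      induction hy using AddSubgroup.closure_induction with
      | mem x hx =>
        have hx' : x ∈ τ := by exact_mod_cast hx
        by_cases hz : x ∈ Z
        · rw [h0 x (Finset.mem_inter.2 ⟨hx', hz⟩), hk0 x (Finset.mem_inter.2 ⟨hx', hz⟩)]; simp
        · rw [h1 x (Finset.mem_sdiff.2 ⟨hx', hz⟩), hk1 x (Finset.mem_sdiff.2 ⟨hx', hz⟩)]; simp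
      | zero => simp
      | add x y _ _ hx hy => rw [dotProduct_add, map_add]; push_cast; rw [hx, hy]; ring
      | neg x _ hx => rw [dotProduct_neg, map_neg]; push_cast; rw [hx]; ring
    refine ⟨k ⬝ᵥ x, ?_⟩
    have h2 := key _ hx
    rw [dotProduct_smul, map_zsmul, smul_eq_mul, zsmul_eq_mul] at h2
    push_cast at h2
    have hj' : (j : ℝ) ≠ 0 := by exact_mod_cast hj
    have h3 : (j : ℝ) * (((k ⬝ᵥ x : ℤ) : ℝ) - N * Ψ x) = 0 := by
      linear_combination h2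
    have h4 := (mul_eq_zero.1 h3).resolve_left hj'
    linarith
  · intro h
    obtain ⟨k, hk⟩ := ext_sat (τ : Set (Fin n → ℤ)) (N • Ψ) (by
      intro x hx
      obtain ⟨z, hz⟩ := h x hx
      refine ⟨z, ?_⟩
      rw [← hz]
      simp)
    have hmem : ∀ u ∈ τ, u ∈ sat (τ : Set (Fin n → ℤ)) := fun u hu =>
      closure_le_sat _ (AddSubgroup.subset_closure (by exact_mod_cast hu))
    refine ⟨k, fun u hu => ?_, fun u hu => ?_⟩
    · have h2 := hk u (hmem u (Finset.mem_sdiff.1 hu).1)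
      have h3 : (N • Ψ) u = (N : ℝ) := by simp [h1 u hu]
      rw [h3] at h2
      exact_mod_cast h2
    · have h2 := hk u (hmem u (Finset.mem_inter.1 hu).1)
      have h3 : (N • Ψ) u = (0 : ℝ) := by simp [h0 u hu]
      rw [h3] at h2
      exact_mod_cast h2

theorem latDist_spec (hp : idx (τ : Set (Fin n → ℤ)) ≠ 0) {u₀ : Fin n → ℤ} (hu₀ : u₀ ∈ τ \ Z) :
    0 < latDistZ Z τ ∧
    (∀ x ∈ sat (τ : Set (Fin n → ℤ)), ∃ z : ℤ, (latDistZ Z τ : ℝ) * Ψ x = z) ∧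
    ∃ x ∈ sat (τ : Set (Fin n → ℤ)), (latDistZ Z τ : ℝ) * Ψ x = 1 := by
  set A : Set ℕ := {N : ℕ | 0 < N ∧ ∃ k : Fin n → ℤ, (∀ u ∈ τ \ Z, k ⬝ᵥ u = (N : ℤ)) ∧
    ∀ u ∈ τ ∩ Z, k ⬝ᵥ u = 0} with hA
  have hAmem : ∀ N : ℕ, N ∈ A ↔ 0 < N ∧
      ∀ x ∈ sat (τ : Set (Fin n → ℤ)), ∃ z : ℤ, (N : ℝ) * Ψ x = z := by
    intro N
    rw [hA, Set.mem_ofPred_eq, mem_A_iff h1 h0]
  have hne : A.Nonempty := by
    refine ⟨(idx (τ : Set (Fin n → ℤ))).factorial, ?_⟩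
    rw [hAmem]
    refine ⟨Nat.factorial_pos _, fun x hx => ?_⟩
    have h2 := AddSubgroup.nsmul_mem_of_relIndex_ne_zero_of_dvd hp hx
      (n := (idx (τ : Set (Fin n → ℤ))).factorial)
      (fun m hm hm' => Nat.dvd_factorial hm hm')
    obtain ⟨a, ha, _⟩ := closure_dec h1 h0 hu₀ h2.1
    refine ⟨a, ?_⟩
    rw [← ha, map_nsmul]
    simp
  have hL : latDistZ Z τ = sInf A := rfl
  have hmem : latDistZ Z τ ∈ A := by
    rw [hL]
    exact Nat.sInf_mem hne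
  have hmem' := (hAmem _).1 hmem
  refine ⟨hmem'.1, hmem'.2, ?_⟩
  -- the subgroup of values
  set L : ℕ := latDistZ Z τ with hLdef
  let D : AddSubgroup ℤ := {
    carrier := {z | ∃ x ∈ sat (τ : Set (Fin n → ℤ)), (L : ℝ) * Ψ x = z}
    zero_mem' := ⟨0, AddSubgroup.zero_mem _, by simp⟩
    add_mem' := by
      rintro a b ⟨x, hx, hxa⟩ ⟨y, hy, hyb⟩
      exact ⟨x + y, AddSubgroup.add_mem _ hx hy, by rw [map_add, mul_add, hxa, hyb]; push_cast; rfl⟩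
    neg_mem' := by
      rintro a ⟨x, hx, hxa⟩
      exact ⟨-x, AddSubgroup.neg_mem _ hx, by rw [map_neg, mul_neg, hxa]; push_cast; rfl⟩ }
  obtain ⟨d, hd⟩ := Int.subgroup_cyclic D
  have hLD : (L : ℤ) ∈ D := by
    refine ⟨u₀, closure_le_sat _ (AddSubgroup.subset_closure
      (by exact_mod_cast (Finset.mem_sdiff.1 hu₀).1)), ?_⟩
    rw [h1 u₀ hu₀]
    simp
  have hdvd : ∀ z ∈ D, d ∣ z := by
    intro z hz
    rw [hd, AddSubgroup.mem_closure_singleton] at hz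
    obtain ⟨m, hm⟩ := hz
    exact ⟨m, by rw [← hm, smul_eq_mul, mul_comm]⟩
  have hdL : d.natAbs ∣ L := by
    have := hdvd _ hLD
    rw [← Int.natAbs_dvd_natAbs] at this
    simpa using this
  obtain ⟨e, he⟩ := hdL
  have he0 : 0 < e := by
    rcases Nat.eq_zero_or_pos e with h | h
    · rw [h, mul_zero] at he
      omega
    · exact h
  have hd0 : 0 < d.natAbs := by
    rcases Nat.eq_zero_or_pos d.natAbs with h | h
    · rw [h, zero_mul] at he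
      omega
    · exact h
  have heA : e ∈ A := by
    rw [hAmem]
    refine ⟨he0, fun x hx => ?_⟩
    obtain ⟨z, hz⟩ := hmem'.2 x hx
    have hzD : z ∈ D := ⟨x, hx, hz⟩
    have h2 : ((d.natAbs : ℕ) : ℤ) ∣ z := Int.natAbs_dvd.2 (hdvd _ hzD)
    obtain ⟨m, hm⟩ := h2
    refine ⟨m, ?_⟩
    rw [he, hm] at hz
    push_cast at hz
    have hd' : ((d.natAbs : ℕ) : ℝ) ≠ 0 := by exact_mod_cast hd0.ne'
    have hcast : ((d.natAbs : ℕ) : ℝ) = |(d : ℝ)| := by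
      rw [Nat.cast_natAbs]; push_cast; rfl
    rw [hcast] at hd'
    have h3 : |(d : ℝ)| * (e * Ψ x - m) = 0 := by
      rw [hcast] at hz
      linear_combination hz
    have := (mul_eq_zero.1 h3).resolve_left hd'
    linarith
  have hle : L ≤ e := by
    rw [hL]
    exact Nat.sInf_le heA
  have hd1 : d.natAbs = 1 := by
    by_contra hcon
    have : 2 ≤ d.natAbs := by omega
    have h2 : 2 * e ≤ L := by rw [he]; exact Nat.mul_le_mul_right _ this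
    omega
  have h1D : (1 : ℤ) ∈ D := by
    rw [hd]
    rcases Int.natAbs_eq d with h | h
    · rw [h, hd1]
      exact AddSubgroup.subset_closure (by simp)
    · rw [h, hd1]
      have : ((-(1 : ℕ) : ℤ)) ∈ AddSubgroup.closure ({(-(1 : ℕ) : ℤ)} : Set ℤ) :=
        AddSubgroup.subset_closure (by simp)
      simpa using AddSubgroup.neg_mem _ this
  obtain ⟨x, hx, hx'⟩ := h1D
  exact ⟨x, hx, by rw [hx']; simp⟩

theorem exists_psi_iff (hp : idx (τ : Set (Fin n → ℤ)) ≠ 0) {u₀ : Fin n → ℤ}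
    (hu₀ : u₀ ∈ τ \ Z) (q : ℚ) :
    (∃ x ∈ sat (τ : Set (Fin n → ℤ)), ∃ z : ℤ, Ψ x - q = z) ↔ q.den ∣ latDistZ Z τ := by
  obtain ⟨hL0, hL, x₁, hx₁, hx₁'⟩ := latDist_spec h1 h0 hp hu₀
  have hL0' : (latDistZ Z τ : ℝ) ≠ 0 := by exact_mod_cast hL0.ne'
  constructor
  · rintro ⟨x, hx, z, hz⟩
    obtain ⟨m, hm⟩ := hL x hx
    have h2 : (latDistZ Z τ : ℝ) * q = m - latDistZ Z τ * z := by
      rw [← hm, ← hz]; ring
    have h3 : ((latDistZ Z τ : ℕ) : ℚ) * q = ((m - latDistZ Z τ * z : ℤ) : ℚ) := by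
      have : (((latDistZ Z τ : ℚ) * q : ℚ) : ℝ) = (((m - latDistZ Z τ * z : ℤ) : ℚ) : ℝ) := by
        push_cast
        exact h2
      exact_mod_cast this
    have hL0q : ((latDistZ Z τ : ℕ) : ℚ) ≠ 0 := by exact_mod_cast hL0.ne'
    have h4 : q = Rat.divInt (m - latDistZ Z τ * z) (latDistZ Z τ) := by
      rw [Rat.divInt_eq_div, ← h3]
      push_cast
      field_simp
    have h5 := Rat.den_dvd (m - latDistZ Z τ * z) (latDistZ Z τ)
    rw [← h4] at h5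
    exact_mod_cast h5
  · rintro ⟨m, hm⟩
    refine ⟨(q.num * m) • x₁, AddSubgroup.zsmul_mem _ hx₁ _, 0, ?_⟩
    rw [map_zsmul, zsmul_eq_mul]
    have h2 : (q : ℝ) = q.num / q.den := by
      have := Rat.num_div_den q
      exact_mod_cast this.symm
    have h3 : Ψ x₁ = 1 / (latDistZ Z τ : ℝ) := by
      field_simp
      linarith
    rw [h3, hm, h2]
    have h4 : (q.den : ℝ) ≠ 0 := by exact_mod_cast q.den_nz
    have h5 : (m : ℝ) ≠ 0 := by
      intro h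
      rw [hm] at hL0'
      push_cast at hL0'
      rw [h, mul_zero] at hL0'
      exact hL0' rfl
    push_cast
    field_simp
    ring

end

end Mono.H33
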