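import Pool.Agent.Helper33.Mono.Distrib

/-! The distributivity lemma (4b): alternating sums of dimensions. -/

namespace Pool.Agent.Helper33.Mono

open Module

variable {k : Type*} [Field k] {P : Type*} [CommRing P] [Algebra k P] {n : ℕ}

section

variable (k) (B : Ideal P) (I : Fin n → Ideal P) (θ : Fin n → P)

/-- `Q n S` as a subspace. -/
abbrev Qk (S : Finset (Fin n)) : Submodule k P := (Q B I θ n S).restrictScalars k

/-- The intersection of the `Q n S + I_i`, `i ∈ J`. -/
abbrev Ak (J S : Finset (Fin n)) : Submodule k P :=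
  (⨅ i ∈ J, (Q B I θ n S ⊔ I i)).restrictScalars k

/-- The image of the intersection in the quotient by `Q n S`. -/
noncomputable abbrev Wk (J S : Finset (Fin n)) : Submodule k (P ⧸ Qk k B I θ S) :=
  Submodule.map (Qk k B I θ S).mkQ (Ak k B I θ J S)

variable {k B I θ} {L : Finset (Fin n)}

lemma mem_Ak {J S : Finset (Fin n)} {x : P} :
    x ∈ Ak k B I θ J S ↔ ∀ i ∈ J, x ∈ Q B I θ n S ⊔ I i := by
  rw [Submodule.restrictScalars_mem, Submodule.mem_iInf]
  exact forall_congr' fun i => Submodule.mem_iInf _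

lemma mk_mem_Wk {J S : Finset (Fin n)} {x : P} :
    (Qk k B I θ S).mkQ x ∈ Wk k B I θ J S ↔ ∀ i ∈ J, x ∈ Q B I θ n S ⊔ I i := by
  rw [Submodule.mem_map]
  constructor
  · rintro ⟨y, hy, hxy⟩ i hi
    have h1 := mem_Ak.1 hy i hi
    have h2 : y - x ∈ Qk k B I θ S := by
      rw [← Submodule.ker_mkQ (Qk k B I θ S), LinearMap.mem_ker, map_sub, hxy, sub_self]
    have h3 := (Q B I θ n S ⊔ I i).sub_mem h1
      ((le_sup_left : Q B I θ n S ≤ Q B I θ n S ⊔ I i) h2)
    rwa [sub_sub_cancel] at h3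
  · intro h
    exact ⟨x, mem_Ak.2 h, rfl⟩

lemma Qk_le (S : Finset (Fin n)) (i₀ : Fin n) [DecidableEq (Fin n)] :
    Qk k B I θ S ≤ Submodule.comap LinearMap.id (Qk k B I θ (insert i₀ S)) := by
  intro x hx
  exact Q_mono_S B I θ n (Finset.subset_insert _ _) hx

lemma d_step [DecidableEq (Fin n)] (hC : CRT B I θ L n) {J S : Finset (Fin n)} (hJ : J ⊆ L)
    (hS : S ⊆ L) (hSJ : Disjoint S J) {i₀ : Fin n} (hi₀ : i₀ ∈ L) (hi₀J : i₀ ∉ J) (hi₀S : i₀ ∉ S)
    [Module.Finite k (P ⧸ Qk k B I θ S)] :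
    finrank k (Wk k B I θ (insert i₀ J) S) + finrank k (Wk k B I θ J (insert i₀ S)) =
      finrank k (Wk k B I θ J S) := by
  set f : (P ⧸ Qk k B I θ S) →ₗ[k] (P ⧸ Qk k B I θ (insert i₀ S)) :=
    (Qk k B I θ S).mapQ (Qk k B I θ (insert i₀ S)) LinearMap.id (Qk_le S i₀) with hf
  have hfx : ∀ x : P, f ((Qk k B I θ S).mkQ x) = (Qk k B I θ (insert i₀ S)).mkQ x := fun x => rfl
  set g := f.domRestrict (Wk k B I θ J S) with hg
  have hrange : LinearMap.range g = Wk k B I θ J (insert i₀ S) := by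
    rw [hg, LinearMap.range_domRestrict]
    apply le_antisymm
    · rintro y hy
      obtain ⟨z, hz, rfl⟩ := Submodule.mem_map.1 hy
      obtain ⟨x, hx, rfl⟩ := Submodule.mem_map.1 hz
      rw [hfx]
      refine mk_mem_Wk.2 fun i hi => ?_
      exact sup_le_sup_right (Q_mono_S B I θ n (Finset.subset_insert _ _)) _ (mem_Ak.1 hx i hi)
    · rintro z hz
      obtain ⟨y, hy, rfl⟩ := Submodule.mem_map.1 hz
      have hy' := mem_Ak.1 hy
      -- find `x = y` mod `Q n S + I i₀`, `x = 0` mod `Q n S + I i`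
      obtain ⟨x, hx⟩ := hC S (insert i₀ J) hS (Finset.insert_subset hi₀ hJ) (by
        rw [Finset.disjoint_insert_right]
        exact ⟨hi₀S, hSJ⟩) (fun i => if i = i₀ then y else 0) (by
        intro i hi i' hi' hne
        rcases Finset.mem_insert.1 hi with h | h <;> rcases Finset.mem_insert.1 hi' with h' | h'
        · exact absurd (h.trans h'.symm) hne
        · subst h
          simp only [if_true, if_neg hne.symm, sub_zero]
          have := hy' i' h'
          rwa [Q_insert] at this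
        · subst h'
          simp only [if_true, if_neg hne, zero_sub]
          have := hy' i h
          rw [Q_insert] at this
          rw [sup_assoc, sup_comm (I i), ← sup_assoc]
          exact neg_mem this
        · have e1 : i ≠ i₀ := fun e => hi₀J (e ▸ h)
          have e2 : i' ≠ i₀ := fun e => hi₀J (e ▸ h')
          simp [e1, e2])
      refine Submodule.mem_map.2 ⟨(Qk k B I θ S).mkQ x, mk_mem_Wk.2 fun i hi => ?_, ?_⟩
      · have h1 := hx i (Finset.mem_insert_of_mem hi)
        have e1 : i ≠ i₀ := fun e => hi₀J (e ▸ hi)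
        simpa [e1] using h1
      · rw [hfx]
        have h1 := hx i₀ (Finset.mem_insert_self _ _)
        simp only [if_true] at h1
        rw [← Q_insert] at h1
        rw [← sub_eq_zero, ← map_sub, ← LinearMap.mem_ker, Submodule.ker_mkQ]
        exact h1
  have hker : (LinearMap.ker g).map (Wk k B I θ J S).subtype = Wk k B I θ (insert i₀ J) S := by
    ext z
    rw [Submodule.mem_map]
    constructor
    · rintro ⟨⟨w, hw⟩, hw0, rfl⟩
      obtain ⟨x, hx, rfl⟩ := Submodule.mem_map.1 hw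
      have h0 : f ((Qk k B I θ S).mkQ x) = 0 := hw0
      rw [hfx, ← LinearMap.mem_ker, Submodule.ker_mkQ] at h0
      refine mk_mem_Wk.2 fun i hi => ?_
      rcases Finset.mem_insert.1 hi with h | h
      · subst h
        rw [← Q_insert]
        exact h0
      · exact mem_Ak.1 hx i h
    · intro hz
      obtain ⟨x, hx, rfl⟩ := Submodule.mem_map.1 hz
      have hx' := mem_Ak.1 hx
      refine ⟨⟨(Qk k B I θ S).mkQ x, mk_mem_Wk.2 fun i hi => hx' i (Finset.mem_insert_of_mem hi)⟩,
        ?_, rfl⟩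
      have h1 := hx' i₀ (Finset.mem_insert_self _ _)
      rw [← Q_insert] at h1
      change f ((Qk k B I θ S).mkQ x) = 0
      rw [hfx, ← LinearMap.mem_ker, Submodule.ker_mkQ]
      exact h1
  have h1 := LinearMap.finrank_range_add_finrank_ker g
  rw [hrange] at h1
  have h2 : finrank k (LinearMap.ker g) = finrank k (Wk k B I θ (insert i₀ J) S) := by
    rw [← hker]
    exact (LinearEquiv.finrank_eq ((Submodule.equivMapOfInjective (Wk k B I θ J S).subtype
      (Submodule.injective_subtype _) (LinearMap.ker g))))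
  omega

lemma Wk_empty (S : Finset (Fin n)) : Wk k B I θ ∅ S = ⊤ := by
  rw [eq_top_iff]
  rintro z -
  obtain ⟨x, rfl⟩ := Submodule.mkQ_surjective _ z
  exact mk_mem_Wk.2 (by simp)

lemma d_sum [DecidableEq (Fin n)] (hC : CRT B I θ L n)
    (hfin : ∀ S ⊆ L, Module.Finite k (P ⧸ Qk k B I θ S)) :
    ∀ T J S : Finset (Fin n), T ⊆ L → J ⊆ L → S ⊆ L → Disjoint S J → Disjoint T S → Disjoint T J →
    (finrank k (Wk k B I θ (J ∪ T) S) : ℤ) =
      ∑ U ∈ T.powerset, (-1) ^ U.card * (finrank k (Wk k B I θ J (S ∪ U)) : ℤ) := by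
  intro T
  induction T using Finset.induction_on with
  | empty =>
    intro J S _ _ _ _ _ _
    rw [Finset.powerset_empty, Finset.sum_singleton, Finset.card_empty, pow_zero, one_mul,
      Finset.union_empty, Finset.union_empty]
  | insert t T ht ih =>
    intro J S hT hJ hS hSJ hTS hTJ
    rw [Finset.disjoint_insert_left] at hTS hTJ
    have htL : t ∈ L := hT (Finset.mem_insert_self _ _)
    have hTL : T ⊆ L := (Finset.subset_insert _ _).trans hT
    have := hfin S hS
    have h1 := d_step (k := k) hC (J := J ∪ T) (S := S) (Finset.union_subset hJ hTL) hS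
      (by rw [Finset.disjoint_union_right]; exact ⟨hSJ, hTS.2.symm⟩) htL
      (by simp [hTJ.1, ht]) hTS.1
    have h2 := ih J S hTL hJ hS hSJ hTS.2 hTJ.2
    have h3 := ih J (insert t S) hTL hJ (Finset.insert_subset htL hS)
      (by rw [Finset.disjoint_insert_left]; exact ⟨hTJ.1, hSJ⟩)
      (by rw [Finset.disjoint_insert_right]; exact ⟨ht, hTS.2⟩) hTJ.2
    rw [Finset.sum_powerset_insert ht, ← h2]
    have h4 : ∑ U ∈ T.powerset, (-1) ^ (insert t U).card *
        (finrank k (Wk k B I θ J (S ∪ insert t U)) : ℤ) =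
        - (finrank k (Wk k B I θ (J ∪ T) (insert t S)) : ℤ) := by
      rw [h3, ← Finset.sum_neg_distrib]
      refine Finset.sum_congr rfl fun U hU => ?_
      have htU : t ∉ U := fun h => ht (Finset.mem_powerset.1 hU h)
      rw [Finset.card_insert_of_notMem htU, pow_succ, Finset.union_insert, Finset.insert_union]
      ring
    rw [h4]
    have e : J ∪ insert t T = insert t (J ∪ T) := by
      rw [Finset.union_insert]
    rw [e]
    omega

lemma finrank_quot (S : Finset (Fin n)) :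
    finrank k (Wk k B I θ ∅ S) = finrank k (P ⧸ Q B I θ n S) := by
  rw [Wk_empty, finrank_top]
  exact LinearEquiv.finrank_eq (Submodule.Quotient.restrictScalarsEquiv k (Q B I θ n S))

end

variable {B : Ideal P} {I : Fin n → Ideal P} {θ : Fin n → P} {L : Finset (Fin n)}

/-- The alternating sum as a dimension. -/
theorem alt_sum (hC : CRT B I θ L n)
    (hfin : ∀ S ⊆ L, Module.Finite k (P ⧸ Q B I θ n S)) :
    ∑ S ∈ L.powerset, (-1) ^ S.card * (finrank k (P ⧸ Q B I θ n S) : ℤ) =
      finrank k (Wk k B I θ L ∅) := by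
  classical
  have hfin' : ∀ S ⊆ L, Module.Finite k (P ⧸ Qk k B I θ S) := by
    intro S hS
    have := hfin S hS
    exact Module.Finite.equiv (Submodule.Quotient.restrictScalarsEquiv k (Q B I θ n S)).symm
  have h := d_sum hC hfin' L ∅ ∅ subset_rfl (Finset.empty_subset _) (Finset.empty_subset _)
    (by simp) (by simp) (by simp)
  rw [Finset.empty_union] at h
  rw [h]
  refine Finset.sum_congr rfl fun U _ => ?_
  rw [Finset.empty_union, finrank_quot]

theorem alt_nonneg (hC : CRT B I θ L n)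
    (hfin : ∀ S ⊆ L, Module.Finite k (P ⧸ Q B I θ n S)) :
    0 ≤ ∑ S ∈ L.powerset, (-1) ^ S.card * (finrank k (P ⧸ Q B I θ n S) : ℤ) := by
  rw [alt_sum hC hfin]
  positivity

theorem iInf_le_of_alt_eq_zero (hC : CRT B I θ L n)
    (hfin : ∀ S ⊆ L, Module.Finite k (P ⧸ Q B I θ n S))
    (h0 : ∑ S ∈ L.powerset, (-1) ^ S.card * (finrank k (P ⧸ Q B I θ n S) : ℤ) = 0) :
    (⨅ i ∈ L, B ⊔ I i) ≤ Q B I θ n ∅ := by
  classical
  rw [alt_sum hC hfin] at h0
  have h1 : finrank k (Wk k B I θ L ∅) = 0 := by exact_mod_cast h0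
  have : Module.Finite k (P ⧸ Qk k B I θ ∅) := by
    have := hfin ∅ (Finset.empty_subset _)
    exact Module.Finite.equiv (Submodule.Quotient.restrictScalarsEquiv k (Q B I θ n ∅)).symm
  have h2 : Wk k B I θ L ∅ = ⊥ := Submodule.finrank_eq_zero.1 h1
  intro x hx
  have h3 : (Qk k B I θ ∅).mkQ x ∈ Wk k B I θ L ∅ := by
    refine mk_mem_Wk.2 fun i hi => ?_
    have h4 : x ∈ B ⊔ I i := by
      have := (Submodule.mem_iInf _).1 hx i
      exact (Submodule.mem_iInf _).1 this hi
    exact sup_le_sup_right (B_le_Q B I θ n ∅) _ h4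
  rw [h2, Submodule.mem_bot, ← LinearMap.mem_ker, Submodule.ker_mkQ] at h3
  exact h3

/-- The distributivity lemma. -/
theorem distrib_lemma (hi : ∀ l ∈ L, θ l ∈ B ⊔ I l)
    (hreg : ∀ j : Fin n, ∀ S ⊆ L, j ∉ S → ∀ x, θ j * x ∈ Q B I θ j S → x ∈ Q B I θ j S)
    (hC : CRT B I θ L 0)
    (hfin : ∀ S ⊆ L, Module.Finite k (P ⧸ Q B I θ n S)) :
    0 ≤ ∑ S ∈ L.powerset, (-1) ^ S.card * (finrank k (P ⧸ Q B I θ n S) : ℤ) ∧
    (∑ S ∈ L.powerset, (-1) ^ S.card * (finrank k (P ⧸ Q B I θ n S) : ℤ) = 0 →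
      (⨅ i ∈ L, B ⊔ I i) ≤ Q B I θ n ∅) := by
  have h := crt_all hi hreg hC n le_rfl
  exact ⟨alt_nonneg h hfin, iInf_le_of_alt_eq_zero h hfin⟩

end Pool.Agent.Helper33.Mono
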