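import Mathlib

/-! The distributivity lemma (4b). -/

namespace Pool.Agent.Helper33.Mono

variable {P : Type*} [CommRing P] {n : ℕ}

/-- `Q r S = B + ∑_{l ∈ S} I_l + (θ_j : j < r)`. -/
def Q (B : Ideal P) (I : Fin n → Ideal P) (θ : Fin n → P) (r : ℕ) (S : Finset (Fin n)) : Ideal P :=
  B ⊔ (⨆ l ∈ S, I l) ⊔ Ideal.span {x | ∃ j : Fin n, (j : ℕ) < r ∧ x = θ j}

section

variable (B : Ideal P) (I : Fin n → Ideal P) (θ : Fin n → P)

lemma Q_insert [DecidableEq (Fin n)] (r : ℕ) (S : Finset (Fin n)) (i : Fin n) :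
    Q B I θ r (insert i S) = Q B I θ r S ⊔ I i := by
  unfold Q
  rw [Finset.iSup_insert]
  ac_rfl

lemma Q_succ {r : ℕ} (hr : r < n) (S : Finset (Fin n)) :
    Q B I θ (r + 1) S = Q B I θ r S ⊔ Ideal.span {θ ⟨r, hr⟩} := by
  unfold Q
  rw [sup_assoc _ _ (Ideal.span {θ ⟨r, hr⟩}), ← Ideal.span_union]
  congr 2
  ext x
  simp only [Set.mem_ofPred_eq, Set.mem_union, Set.mem_singleton_iff]
  constructor
  · rintro ⟨j, hj, rfl⟩
    rcases Nat.lt_succ_iff_lt_or_eq.1 hj with h | h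
    · exact Or.inl ⟨j, h, rfl⟩
    · right
      congr 1
      exact Fin.ext h
  · rintro (⟨j, hj, rfl⟩ | rfl)
    · exact ⟨j, by omega, rfl⟩
    · exact ⟨⟨r, hr⟩, by simp, rfl⟩

lemma Q_mono_r {r s : ℕ} (h : r ≤ s) (S : Finset (Fin n)) : Q B I θ r S ≤ Q B I θ s S := by
  unfold Q
  apply sup_le_sup_left
  apply Ideal.span_mono
  rintro x ⟨j, hj, rfl⟩
  exact ⟨j, by omega, rfl⟩

lemma Q_mono_S (r : ℕ) {S T : Finset (Fin n)} (h : S ⊆ T) : Q B I θ r S ≤ Q B I θ r T := by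
  unfold Q
  apply sup_le_sup_right
  apply sup_le_sup_left
  exact biSup_mono fun i hi => h hi

lemma B_le_Q (r : ℕ) (S : Finset (Fin n)) : B ≤ Q B I θ r S := le_sup_of_le_left le_sup_left

lemma I_le_Q (r : ℕ) {S : Finset (Fin n)} {i : Fin n} (hi : i ∈ S) : I i ≤ Q B I θ r S :=
  le_sup_of_le_left (le_sup_of_le_right (le_biSup I hi))

lemma Q_zero (S : Finset (Fin n)) : Q B I θ 0 S = B ⊔ ⨆ l ∈ S, I l := by
  unfold Q
  have : {x | ∃ j : Fin n, (j : ℕ) < 0 ∧ x = θ j} = ∅ := by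
    ext x; simp
  rw [this, Ideal.span_empty, sup_bot_eq]

/-- The Chinese remainder property at level `r`. -/
def CRT (L : Finset (Fin n)) (r : ℕ) : Prop :=
  ∀ S J : Finset (Fin n), S ⊆ L → J ⊆ L → Disjoint S J → ∀ a : Fin n → P,
    (∀ i ∈ J, ∀ i' ∈ J, i ≠ i' → a i - a i' ∈ Q B I θ r S ⊔ I i ⊔ I i') →
    ∃ x, ∀ i ∈ J, x - a i ∈ Q B I θ r S ⊔ I i

variable {B I θ} {L : Finset (Fin n)}

/-- The claim `Q'`. -/
lemma crt_lift {r : ℕ} (hr : r < n) (hi : ∀ l ∈ L, θ l ∈ B ⊔ I l)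
    (hreg : ∀ j : Fin n, ∀ S ⊆ L, j ∉ S → ∀ x, θ j * x ∈ Q B I θ j S → x ∈ Q B I θ j S)
    (hC : CRT B I θ L r) {S J : Finset (Fin n)} (hS : S ⊆ L) (hJ : J ⊆ L) (hSJ : Disjoint S J)
    (b : P) (a : Fin n → P)
    (ha : ∀ i ∈ J, ∀ i' ∈ J, i ≠ i' → a i - a i' ∈ Q B I θ r S ⊔ I i ⊔ I i')
    (hab : ∀ i ∈ J, a i - b ∈ Q B I θ (r + 1) S ⊔ I i) :
    ∃ x, x - b ∈ Q B I θ (r + 1) S ∧ ∀ i ∈ J, x - a i ∈ Q B I θ r S ⊔ I i := by
  classical
  obtain ⟨a0, ha0⟩ := hC S J hS hJ hSJ a ha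
  have he : ∀ i ∈ J, a0 - b ∈ Q B I θ (r + 1) S ⊔ I i := by
    intro i hi'
    have h1 := (Q B I θ (r + 1) S ⊔ I i).add_mem
      (sup_le_sup_right (Q_mono_r B I θ (Nat.le_succ r) S) (I i) (ha0 i hi')) (hab i hi')
    have e : a0 - a i + (a i - b) = a0 - b := by ring
    rwa [e] at h1
  by_cases hrS : (⟨r, hr⟩ : Fin n) ∈ S
  · -- `θ_r` lies in `Q r S`
    have hth : θ ⟨r, hr⟩ ∈ Q B I θ r S := by
      have h1 := hi _ (hS hrS)
      exact (sup_le (B_le_Q B I θ r S) (I_le_Q B I θ r hrS)) h1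
    have hQ : Q B I θ (r + 1) S = Q B I θ r S := by
      rw [Q_succ B I θ hr]
      exact sup_eq_left.2 ((Ideal.span_singleton_le_iff_mem _).2 hth)
    refine ⟨b, by simp, fun i hi' => ?_⟩
    have h1 := he i hi'
    rw [hQ] at h1
    have h2 := (Q B I θ r S ⊔ I i).sub_mem (ha0 i hi') h1
    have e : a0 - a i - (a0 - b) = b - a i := by ring
    rwa [e] at h2
  · have hex : ∀ i ∈ J.erase ⟨r, hr⟩, ∃ g : P, a0 - b - θ ⟨r, hr⟩ * g ∈ Q B I θ r (insert i S) := by
      intro i hi'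
      have h1 := he i (Finset.mem_of_mem_erase hi')
      rw [Q_succ B I θ hr, sup_assoc, sup_comm _ (I i), ← sup_assoc, ← Q_insert,
        Submodule.mem_sup] at h1
      obtain ⟨y, hy, z, hz, hyz⟩ := h1
      obtain ⟨g, rfl⟩ := Ideal.mem_span_singleton'.1 hz
      refine ⟨g, ?_⟩
      rw [← hyz, mul_comm g, add_sub_cancel_right]
      exact hy
    choose! g hg using hex
    obtain ⟨G, hG⟩ := hC S (J.erase ⟨r, hr⟩) hS ((Finset.erase_subset _ _).trans hJ)
      (hSJ.mono_right (Finset.erase_subset _ _)) g (by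
        intro i hi1 i' hi2 hne
        rw [← Q_insert, ← Q_insert]
        have hi1' := Finset.mem_of_mem_erase hi1
        have hi2' := Finset.mem_of_mem_erase hi2
        have h1 : (⟨r, hr⟩ : Fin n) ∉ insert i' (insert i S) := by
          simp only [Finset.mem_insert, not_or]
          exact ⟨(Finset.ne_of_mem_erase hi2).symm, (Finset.ne_of_mem_erase hi1).symm, hrS⟩
        have h2 : insert i' (insert i S) ⊆ L := by
          intro x hx
          simp only [Finset.mem_insert] at hx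
          rcases hx with rfl | rfl | hx
          · exact hJ hi2'
          · exact hJ hi1'
          · exact hS hx
        refine hreg ⟨r, hr⟩ _ h2 h1 _ ?_
        have h3 := Q_mono_S B I θ r (show insert i S ⊆ insert i' (insert i S) from
          Finset.subset_insert _ _) (hg i hi1)
        have h4 := Q_mono_S B I θ r (show insert i' S ⊆ insert i' (insert i S) from
          Finset.insert_subset_insert _ (Finset.subset_insert _ _)) (hg i' hi2)
        have h5 := (Q B I θ r (insert i' (insert i S))).sub_mem h4 h3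
        have e : a0 - b - θ ⟨r, hr⟩ * g i' - (a0 - b - θ ⟨r, hr⟩ * g i) =
            θ ⟨r, hr⟩ * (g i - g i') := by ring
        rwa [e] at h5)
    refine ⟨b + θ ⟨r, hr⟩ * G, ?_, ?_⟩
    · rw [Q_succ B I θ hr, add_sub_cancel_left]
      exact Ideal.mem_sup_right (Ideal.mul_mem_right _ _ (Ideal.mem_span_singleton_self _))
    · intro i hi'
      by_cases hir : i = ⟨r, hr⟩
      · subst hir
        have h1 := he _ hi'
        have hth : θ ⟨r, hr⟩ ∈ Q B I θ r S ⊔ I ⟨r, hr⟩ :=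
          (sup_le_sup_right (B_le_Q B I θ r S) _) (hi _ (hJ hi'))
        have hQ : Q B I θ (r + 1) S ⊔ I ⟨r, hr⟩ = Q B I θ r S ⊔ I ⟨r, hr⟩ := by
          rw [Q_succ B I θ hr, sup_assoc, sup_comm _ (I ⟨r, hr⟩), ← sup_assoc]
          exact sup_eq_left.2 ((Ideal.span_singleton_le_iff_mem _).2 hth)
        rw [hQ] at h1
        have h2 := (Q B I θ r S ⊔ I ⟨r, hr⟩).sub_mem (ha0 _ hi') h1
        have h3 := (Q B I θ r S ⊔ I ⟨r, hr⟩).add_mem h2 (Ideal.mul_mem_right G _ hth)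
        have e : a0 - a ⟨r, hr⟩ - (a0 - b) + θ ⟨r, hr⟩ * G = b + θ ⟨r, hr⟩ * G - a ⟨r, hr⟩ := by
          ring
        rwa [e] at h3
      · have hi2 : i ∈ J.erase ⟨r, hr⟩ := Finset.mem_erase.2 ⟨hir, hi'⟩
        have h1 := hG i hi2
        have h2 := hg i hi2
        rw [Q_insert] at h2
        have h3 := ha0 i hi'
        have h4 := (Q B I θ r S ⊔ I i).sub_mem (Ideal.mul_mem_left _ (θ ⟨r, hr⟩) h1) h2
        have h5 := (Q B I θ r S ⊔ I i).add_mem h4 h3
        have e : θ ⟨r, hr⟩ * (G - g i) - (a0 - b - θ ⟨r, hr⟩ * g i) + (a0 - a i) =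
            b + θ ⟨r, hr⟩ * G - a i := by ring
        rwa [e] at h5

lemma crt_succ {r : ℕ} (hr : r < n) (hi : ∀ l ∈ L, θ l ∈ B ⊔ I l)
    (hreg : ∀ j : Fin n, ∀ S ⊆ L, j ∉ S → ∀ x, θ j * x ∈ Q B I θ j S → x ∈ Q B I θ j S)
    (hC : CRT B I θ L r) : CRT B I θ L (r + 1) := by
  classical
  intro S J hS hJ hSJ a ha
  -- lift the classes one after another
  have key : ∀ J' : Finset (Fin n), J' ⊆ J → ∃ a' : Fin n → P,
      (∀ i ∈ J', a' i - a i ∈ Q B I θ (r + 1) (insert i S)) ∧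
      ∀ i ∈ J', ∀ i' ∈ J', i ≠ i' → a' i - a' i' ∈ Q B I θ r S ⊔ I i ⊔ I i' := by
    intro J'
    induction J' using Finset.induction_on with
    | empty => exact fun _ => ⟨a, by simp, by simp⟩
    | insert i₀ J' hi₀ ih =>
      intro hJ'
      obtain ⟨a', h1, h2⟩ := ih ((Finset.subset_insert _ _).trans hJ')
      have hi₀J : i₀ ∈ J := hJ' (Finset.mem_insert_self _ _)
      have hJ'J : J' ⊆ J := (Finset.subset_insert _ _).trans hJ'
      have hd : Disjoint (insert i₀ S) J' := by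
        rw [Finset.disjoint_insert_left]
        exact ⟨hi₀, hSJ.mono_right hJ'J⟩
      have hSL : insert i₀ S ⊆ L := Finset.insert_subset (hJ hi₀J) hS
      obtain ⟨x, hx1, hx2⟩ := crt_lift hr hi hreg hC hSL (hJ'J.trans hJ) hd (a i₀) a' (by
        intro i hi1 i' hi2 hne
        have := h2 i hi1 i' hi2 hne
        exact sup_le_sup_right (sup_le_sup_right (Q_mono_S B I θ r (Finset.subset_insert _ _)) _) _
          this) (by
        intro i hi1
        have e1 := h1 i hi1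
        have hne : i ≠ i₀ := fun h => hi₀ (h ▸ hi1)
        have e2 := ha i (hJ'J hi1) i₀ hi₀J hne
        rw [Q_insert] at e1 ⊢
        have e3 : a' i - a i ∈ Q B I θ (r + 1) S ⊔ I i₀ ⊔ I i :=
          (sup_le_sup_right le_sup_left (I i)) e1
        have e4 : a i - a i₀ ∈ Q B I θ (r + 1) S ⊔ I i₀ ⊔ I i := by
          rwa [sup_assoc, sup_comm (I i₀), ← sup_assoc]
        have e5 := (Q B I θ (r + 1) S ⊔ I i₀ ⊔ I i).add_mem e3 e4
        have e : a' i - a i + (a i - a i₀) = a' i - a i₀ := by ring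
        rwa [e] at e5)
      refine ⟨Function.update a' i₀ x, ?_, ?_⟩
      · intro i hi1
        rcases Finset.mem_insert.1 hi1 with h | h
        · subst h
          simpa using hx1
        · have hne : i ≠ i₀ := fun h' => hi₀ (h' ▸ h)
          rw [Function.update_of_ne hne]
          exact h1 i h
      · intro i hi1 i' hi2 hne
        rcases Finset.mem_insert.1 hi1 with h | h <;> rcases Finset.mem_insert.1 hi2 with h' | h'
        · exact absurd (h.trans h'.symm) hne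
        · subst h
          rw [Function.update_self, Function.update_of_ne hne.symm, ← Q_insert]
          exact hx2 i' h'
        · subst h'
          rw [Function.update_self, Function.update_of_ne hne, sup_assoc, sup_comm (I i),
            ← sup_assoc, ← Q_insert]
          have := hx2 i h
          have h3 := (Q B I θ r (insert i' S) ⊔ I i).neg_mem this
          rwa [neg_sub] at h3
        · have hne1 : i ≠ i₀ := fun e => hi₀ (e ▸ h)
          have hne2 : i' ≠ i₀ := fun e => hi₀ (e ▸ h')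
          rw [Function.update_of_ne hne1, Function.update_of_ne hne2]
          exact h2 i h i' h' hne
  obtain ⟨a', h1, h2⟩ := key J subset_rfl
  obtain ⟨x, hx⟩ := hC S J hS hJ hSJ a' h2
  refine ⟨x, fun i hi1 => ?_⟩
  have e1 := sup_le_sup_right (Q_mono_r B I θ (Nat.le_succ r) S) (I i) (hx i hi1)
  have e2 := h1 i hi1
  rw [Q_insert] at e2
  have e3 := (Q B I θ (r + 1) S ⊔ I i).add_mem e1 e2
  have e : x - a' i + (a' i - a i) = x - a i := by ring
  rwa [e] at e3

theorem crt_all (hi : ∀ l ∈ L, θ l ∈ B ⊔ I l)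
    (hreg : ∀ j : Fin n, ∀ S ⊆ L, j ∉ S → ∀ x, θ j * x ∈ Q B I θ j S → x ∈ Q B I θ j S)
    (hC : CRT B I θ L 0) : ∀ r ≤ n, CRT B I θ L r := by
  intro r
  induction r with
  | zero => exact fun _ => hC
  | succ r ih => exact fun h => crt_succ (by omega) hi hreg (ih (by omega))

end

end Pool.Agent.Helper33.Mono
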