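import Pool.Agent.Helper33.Mono.Shell

/-! Squarefree monomial ideals, and the shelling chain of a partitioned complex. -/

namespace Pool.Agent.Helper33.Mono

open MvPolynomial

variable {σ : Type*} {k : Type*} [Field k]

/-- The ideal generated by the squarefree monomials with support in `𝒰`. -/
def SI (k : Type*) [Field k] (𝒰 : Set (Finset σ)) : Ideal (MvPolynomial σ k) where
  carrier := {p | ∀ m ∈ p.support, ∃ A ∈ 𝒰, A ⊆ m.support}
  zero_mem' := by simp
  add_mem' := by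
    classical
    intro p q hp hq m hm
    rcases Finset.mem_union.1 (MvPolynomial.support_add hm) with h | h
    · exact hp m h
    · exact hq m h
  smul_mem' := by
    classical
    intro c p hp m hm
    rw [smul_eq_mul] at hm
    obtain ⟨m₁, _, m₂, h₂, rfl⟩ := Finset.mem_add.1 (MvPolynomial.support_mul c p hm)
    obtain ⟨A, hA, hA'⟩ := hp m₂ h₂
    refine ⟨A, hA, fun x hx => ?_⟩
    have := hA' hx
    rw [Finsupp.mem_support_iff] at this ⊢
    rw [Finsupp.add_apply]
    omega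

lemma mem_SI {𝒰 : Set (Finset σ)} {p : MvPolynomial σ k} :
    p ∈ SI k 𝒰 ↔ ∀ m ∈ p.support, ∃ A ∈ 𝒰, A ⊆ m.support := Iff.rfl

lemma monomial_mem_SI {𝒰 : Set (Finset σ)} {m : σ →₀ ℕ} (h : ∃ A ∈ 𝒰, A ⊆ m.support) (c : k) :
    monomial m c ∈ SI k 𝒰 := by
  classical
  intro m' hm'
  have := MvPolynomial.support_monomial_subset hm'
  rw [Finset.mem_singleton] at this
  rw [this]
  exact h

lemma monomial_mem_SI_iff {𝒰 : Set (Finset σ)} {m : σ →₀ ℕ} {c : k} (hc : c ≠ 0) :
    monomial m c ∈ SI k 𝒰 ↔ ∃ A ∈ 𝒰, A ⊆ m.support := by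
  classical
  refine ⟨fun h => h m ?_, fun h => monomial_mem_SI h c⟩
  rw [MvPolynomial.support_monomial, if_neg hc]
  exact Finset.mem_singleton_self _

lemma SI_mono {𝒰 𝒱 : Set (Finset σ)} (h : 𝒰 ⊆ 𝒱) : SI k 𝒰 ≤ SI k 𝒱 := by
  intro p hp m hm
  obtain ⟨A, hA, h'⟩ := hp m hm
  exact ⟨A, h hA, h'⟩

lemma SI_union (𝒰 𝒱 : Set (Finset σ)) : SI k (𝒰 ∪ 𝒱) = SI k 𝒰 ⊔ SI k 𝒱 := by
  apply le_antisymm
  · intro p hp
    rw [p.as_sum]
    refine sum_mem fun m hm => ?_
    obtain ⟨A, hA, h'⟩ := hp m hm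
    rcases hA with hA | hA
    · exact Ideal.mem_sup_left (monomial_mem_SI ⟨A, hA, h'⟩ _)
    · exact Ideal.mem_sup_right (monomial_mem_SI ⟨A, hA, h'⟩ _)
  · exact sup_le (SI_mono Set.subset_union_left) (SI_mono Set.subset_union_right)

lemma SI_empty : SI k (∅ : Set (Finset σ)) = ⊥ := by
  rw [eq_bot_iff]
  intro p hp
  rw [Submodule.mem_bot, ← MvPolynomial.support_eq_empty, Finset.eq_empty_iff_forall_notMem]
  intro m hm
  obtain ⟨A, hA, _⟩ := hp m hm
  exact hA

lemma SI_biUnion {ι : Type*} (S : Finset ι) (𝒰 : ι → Set (Finset σ)) :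
    SI k (⋃ l ∈ S, 𝒰 l) = ⨆ l ∈ S, SI k (𝒰 l) := by
  classical
  induction S using Finset.induction_on with
  | empty => simp [SI_empty]
  | insert a S _ ih => rw [Finset.set_biUnion_insert, SI_union, ih, Finset.iSup_insert]

/-- The squarefree monomial with support `A`. -/
noncomputable def sqf (k : Type*) [Field k] (A : Finset σ) : MvPolynomial σ k :=
  monomial (Finsupp.indicator A (fun _ _ => 1)) 1

lemma support_ind (A : Finset σ) : (Finsupp.indicator A (fun _ _ => 1) : σ →₀ ℕ).support = A := by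
  classical
  ext x
  rw [Finsupp.mem_support_iff, Finsupp.indicator_apply]
  split_ifs with h <;> simp [h]

lemma coeff_sqf_mul (A : Finset σ) (w : MvPolynomial σ k) (m : σ →₀ ℕ) :
    coeff (Finsupp.indicator A (fun _ _ => 1) + m) (sqf k A * w) = coeff m w := by
  unfold sqf
  rw [coeff_monomial_mul, one_mul]

lemma sqf_mul_mem [DecidableEq σ] {𝒰 : Set (Finset σ)} (R : Finset σ) (w : MvPolynomial σ k) :
    sqf k R * w ∈ SI k 𝒰 ↔ ∀ m ∈ w.support, ∃ A ∈ 𝒰, A ⊆ R ∪ m.support := by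
  constructor
  · intro h m hm
    have h1 : (Finsupp.indicator R (fun _ _ => 1) + m : σ →₀ ℕ) ∈ (sqf k R * w).support := by
      rw [MvPolynomial.mem_support_iff, coeff_sqf_mul]
      exact MvPolynomial.mem_support_iff.1 hm
    obtain ⟨A, hA, hA'⟩ := h _ h1
    refine ⟨A, hA, hA'.trans ?_⟩
    refine Finsupp.support_add.trans ?_
    rw [support_ind]
  · intro h m hm
    obtain ⟨m₁, h₁, m₂, h₂, rfl⟩ := Finset.mem_add.1 (MvPolynomial.support_mul _ _ hm)
    obtain ⟨A, hA, hA'⟩ := h m₂ h₂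
    have h3 : m₁ = Finsupp.indicator R (fun _ _ => 1) := by
      have := MvPolynomial.support_monomial_subset h₁
      exact Finset.mem_singleton.1 this
    refine ⟨A, hA, fun x hx => ?_⟩
    have h4 := hA' hx
    rw [Finsupp.mem_support_iff, Finsupp.add_apply, h3, Finsupp.indicator_apply]
    rcases Finset.mem_union.1 h4 with h5 | h5
    · rw [dif_pos h5]
      omega
    · rw [Finsupp.mem_support_iff] at h5
      omega

lemma SI_singleton (A : Finset σ) : SI k {A} = Ideal.span {sqf k A} := by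
  classical
  apply le_antisymm
  · intro p hp
    rw [p.as_sum]
    refine sum_mem fun m hm => ?_
    obtain ⟨A', hA', h'⟩ := hp m hm
    rw [Set.mem_singleton_iff] at hA'
    subst hA'
    rw [Ideal.mem_span_singleton']
    have hle : Finsupp.indicator A' (fun _ _ => 1) ≤ m := by
      intro x
      rw [Finsupp.indicator_apply]
      split_ifs with hx
      · have := h' hx
        rw [Finsupp.mem_support_iff] at this
        omega
      · exact Nat.zero_le _
    refine ⟨monomial (m - Finsupp.indicator A' (fun _ _ => 1)) (coeff m p), ?_⟩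
    unfold sqf
    rw [monomial_mul, tsub_add_cancel_of_le hle, mul_one]
  · rw [Ideal.span_singleton_le_iff_mem]
    have h1 : monomial (Finsupp.indicator A (fun _ _ => 1)) (1 : k) ∈ SI k ({A} : Set (Finset σ)) :=
      (monomial_mem_SI_iff one_ne_zero).2 ⟨A, rfl, (support_ind A).ge⟩
    exact h1

lemma SI_top {𝒰 : Set (Finset σ)} (h : ∅ ∈ 𝒰) : SI k 𝒰 = ⊤ := by
  rw [eq_top_iff]
  intro p _ m _
  exact ⟨∅, h, Finset.empty_subset _⟩

/-! ### The Chinese remainder property at level zero -/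

lemma SI_crt {ι : Type*} (J : Finset ι) (𝒲 : Set (Finset σ)) (𝒰 : ι → Set (Finset σ))
    (a : ι → MvPolynomial σ k)
    (ha : ∀ i ∈ J, ∀ i' ∈ J, i ≠ i' → a i - a i' ∈ SI k 𝒲 ⊔ SI k (𝒰 i) ⊔ SI k (𝒰 i')) :
    ∃ x, ∀ i ∈ J, x - a i ∈ SI k 𝒲 ⊔ SI k (𝒰 i) := by
  classical
  set U : Finset (σ →₀ ℕ) := J.biUnion fun i => (a i).support with hU
  let bad : ι → (σ →₀ ℕ) → Prop := fun i m => ¬ ∃ A ∈ 𝒲 ∪ 𝒰 i, A ⊆ m.support
  let c : (σ →₀ ℕ) → k := fun m =>
    if h : ∃ i ∈ J, bad i m then coeff m (a (Classical.choose h)) else 0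
  have hc : ∀ m, ∀ i ∈ J, bad i m → c m = coeff m (a i) := by
    intro m i hi hb
    have hex : ∃ i ∈ J, bad i m := ⟨i, hi, hb⟩
    have h1 : c m = coeff m (a (Classical.choose hex)) := by
      simp only [c]
      rw [dif_pos hex]
    rw [h1]
    obtain ⟨h2, h3⟩ := Classical.choose_spec hex
    set i' := Classical.choose hex
    by_cases hne : i' = i
    · rw [hne]
    · have h4 := ha i' h2 i hi hne
      rw [← SI_union, ← SI_union] at h4
      by_contra h5
      have h6 : m ∈ (a i' - a i).support := by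
        rw [MvPolynomial.mem_support_iff, MvPolynomial.coeff_sub]
        exact sub_ne_zero.2 h5
      obtain ⟨A, hA, hA'⟩ := h4 m h6
      rcases hA with (hA | hA) | hA
      · exact h3 ⟨A, Or.inl hA, hA'⟩
      · exact h3 ⟨A, Or.inr hA, hA'⟩
      · exact hb ⟨A, Or.inr hA, hA'⟩
  refine ⟨∑ m ∈ U, monomial m (c m), fun i hi => ?_⟩
  rw [← SI_union]
  intro m hm
  by_contra hb
  have h1 := hc m i hi hb
  rw [MvPolynomial.mem_support_iff, MvPolynomial.coeff_sub, MvPolynomial.coeff_sum] at hm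
  apply hm
  simp only [coeff_monomial]
  rw [Finset.sum_ite_eq' U m c]
  split_ifs with hmU
  · rw [h1, sub_self]
  · have h2 : m ∉ (a i).support := fun h => hmU (Finset.mem_biUnion.2 ⟨i, hi, h⟩)
    rw [MvPolynomial.notMem_support_iff.1 h2, sub_self]

/-! ### The chain -/

/-- Combinatorial data of a (reverse) shelling: a partition of the complex `Δ` into intervals. -/
structure Part (Δ : Set (Finset σ)) (N : ℕ) (F R : ℕ → Finset σ) (t : Finset σ → ℕ) : Prop where
  down : ∀ A A', A ⊆ A' → A' ∈ Δ → A ∈ Δ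
  empty : ∅ ∈ Δ
  le : ∀ m < N, R m ⊆ F m
  mem : ∀ A ∈ Δ, t A < N ∧ R (t A) ⊆ A ∧ A ⊆ F (t A)
  uniq : ∀ m < N, ∀ A, R m ⊆ A → A ⊆ F m → A ∈ Δ ∧ t A = m
  mono : ∀ A A', A ⊆ A' → A' ∈ Δ → t A' ≤ t A

/-- The chain of ideals. -/
def chain (k : Type*) [Field k] (Δ : Set (Finset σ)) (R : ℕ → Finset σ) (m : ℕ) :
    Ideal (MvPolynomial σ k) := SI k (Δᶜ ∪ {A | ∃ i < m, A = R i})

/-- The ideal of the variables outside `F`. -/
def pF (k : Type*) [Field k] (F : Finset σ) : Ideal (MvPolynomial σ k) :=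
  SI k {A | ∃ u, u ∉ F ∧ A = {u}}

variable {Δ : Set (Finset σ)} {N : ℕ} {F R : ℕ → Finset σ} {t : Finset σ → ℕ}

lemma chain_zero : chain k Δ R 0 = SI k Δᶜ := by
  unfold chain
  congr 1
  ext A
  simp

lemma chain_succ (m : ℕ) : chain k Δ R (m + 1) = chain k Δ R m ⊔ Ideal.span {sqf k (R m)} := by
  unfold chain
  rw [← SI_singleton, ← SI_union]
  congr 1
  ext A
  simp only [Set.mem_union, Set.mem_ofPred_eq, Set.mem_singleton_iff, or_assoc]
  apply or_congr_right
  constructor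
  · rintro ⟨i, hi, rfl⟩
    rcases Nat.lt_succ_iff_lt_or_eq.1 hi with h | h
    · exact Or.inl ⟨i, h, rfl⟩
    · exact Or.inr (by rw [h])
  · rintro (⟨i, hi, rfl⟩ | rfl)
    · exact ⟨i, by omega, rfl⟩
    · exact ⟨m, by omega, rfl⟩

lemma chain_top (h : Part Δ N F R t) : chain k Δ R N = ⊤ := by
  apply SI_top
  obtain ⟨h1, h2, _⟩ := h.mem ∅ h.empty
  right
  exact ⟨t ∅, h1, (Finset.subset_empty.1 h2).symm⟩

lemma mem_pF {F : Finset σ} {w : MvPolynomial σ k} :
    w ∈ pF k F ↔ ∀ m ∈ w.support, ¬ m.support ⊆ F := by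
  unfold pF
  rw [mem_SI]
  apply forall_congr'
  intro m
  apply imp_congr_right
  intro _
  constructor
  · rintro ⟨A, ⟨u, hu, rfl⟩, h⟩ h'
    exact hu (h' (h (Finset.mem_singleton_self u)))
  · intro h
    rw [Finset.not_subset] at h
    obtain ⟨u, hu, hu'⟩ := h
    exact ⟨{u}, ⟨u, hu', rfl⟩, Finset.singleton_subset_iff.2 hu⟩

lemma chain_colon (h : Part Δ N F R t) {m : ℕ} (hm : m < N) (w : MvPolynomial σ k) :
    sqf k (R m) * w ∈ chain k Δ R m ↔ w ∈ pF k (F m) := by
  classical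
  unfold chain
  rw [sqf_mul_mem, mem_pF]
  apply forall_congr'
  intro μ
  apply imp_congr_right
  intro _
  set A := R m ∪ μ.support with hA
  have hRA : R m ⊆ A := Finset.subset_union_left
  constructor
  · rintro ⟨A', hA' | ⟨i, hi, rfl⟩, hsub⟩ hμ
    · have h1 := h.uniq m hm A hRA (Finset.union_subset (h.le m hm) hμ)
      exact hA' (h.down _ _ hsub h1.1)
    · have h1 := h.uniq m hm A hRA (Finset.union_subset (h.le m hm) hμ)
      have h2 := h.uniq i (by omega) (R i) subset_rfl (h.le i (by omega))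
      have h3 := h.mono _ _ hsub h1.1
      omega
  · intro hμ
    by_cases hAΔ : A ∈ Δ
    · obtain ⟨h1, h2, h3⟩ := h.mem A hAΔ
      have h4 := h.uniq m hm (R m) subset_rfl (h.le m hm)
      have h5 := h.mono _ _ hRA hAΔ
      rw [h4.2] at h5
      rcases Nat.lt_or_ge (t A) m with h6 | h6
      · exact ⟨R (t A), Or.inr ⟨t A, h6, rfl⟩, h2⟩
      · exfalso
        have h7 : t A = m := le_antisymm h5 h6
        rw [h7] at h3
        exact hμ (Finset.subset_union_right.trans h3)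
    · exact ⟨A, Or.inl hAΔ, subset_rfl⟩

end Pool.Agent.Helper33.Mono
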