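import Pool.Agent.Helper33.Mono.Dims

/-! Shelling lemma: regular sequences along a chain of ideals (4a, commutative algebra). -/

namespace Pool.Agent.Helper33.Mono

open Module

section

variable {P : Type*} [CommRing P] {n : ℕ}

/-- The ideal `(θ_j : j < r)`. -/
def TH (θ : Fin n → P) (r : ℕ) : Ideal P := Ideal.span {x | ∃ j : Fin n, (j : ℕ) < r ∧ x = θ j}

lemma TH_zero (θ : Fin n → P) : TH θ 0 = ⊥ := by
  unfold TH
  have : {x | ∃ j : Fin n, (j : ℕ) < 0 ∧ x = θ j} = ∅ := by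
    ext x; simp
  rw [this, Ideal.span_empty]

lemma TH_succ (θ : Fin n → P) {r : ℕ} (hr : r < n) :
    TH θ (r + 1) = TH θ r ⊔ Ideal.span {θ ⟨r, hr⟩} := by
  unfold TH
  rw [← Ideal.span_union]
  congr 1
  ext x
  simp only [Set.mem_ofPred_eq, Set.mem_union, Set.mem_singleton_iff]
  constructor
  · rintro ⟨j, hj, rfl⟩
    rcases Nat.lt_succ_iff_lt_or_eq.1 hj with h | h
    · exact Or.inl ⟨j, h, rfl⟩
    · right
      congr 1
      exact Fin.ext h
  · rintro (⟨j, hj, rfl⟩ | rfl)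
    · exact ⟨j, by omega, rfl⟩
    · exact ⟨⟨r, hr⟩, by simp, rfl⟩

lemma Q_eq (B : Ideal P) (I : Fin n → Ideal P) (θ : Fin n → P) (r : ℕ) (S : Finset (Fin n)) :
    Q B I θ r S = (B ⊔ ⨆ l ∈ S, I l) ⊔ TH θ r := rfl

variable {θ : Fin n → P} {N : ℕ} {J : ℕ → Ideal P} {R : ℕ → P} {p : ℕ → Ideal P}
  {T : Set (Fin n)}

/-- Regularity of `θ` modulo `A`. -/
def Reg (θ : Fin n → P) (T : Set (Fin n)) (A : Ideal P) : Prop :=
  ∀ j ∈ T, ∀ x, θ j * x ∈ A ⊔ TH θ j → x ∈ A ⊔ TH θ j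

/-- One step: the colon ideals. -/
lemma colon_step {A A' 𝔮 : Ideal P} {ρ : P} (hA' : A' = A ⊔ Ideal.span {ρ})
    (hcol : ∀ w, ρ * w ∈ A ↔ w ∈ 𝔮) (hT : ∀ j ∉ T, θ j ∈ A) (hreg : Reg θ T A') :
    ∀ r ≤ n, ∀ w, ρ * w ∈ A ⊔ TH θ r ↔ w ∈ 𝔮 ⊔ TH θ r := by
  have hback : ∀ r, ∀ w, w ∈ 𝔮 ⊔ TH θ r → ρ * w ∈ A ⊔ TH θ r := by
    intro r w hw
    obtain ⟨y, hy, z, hz, rfl⟩ := Submodule.mem_sup.1 hw
    rw [mul_add]
    exact add_mem (Ideal.mem_sup_left ((hcol y).2 hy))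
      (Ideal.mem_sup_right (Ideal.mul_mem_left _ _ hz))
  intro r
  induction r with
  | zero =>
    intro _ w
    rw [TH_zero, sup_bot_eq, sup_bot_eq]
    exact hcol w
  | succ r ih =>
    intro hr w
    refine ⟨fun hw => ?_, hback _ w⟩
    have hr' : r < n := by omega
    have ih' := ih (by omega)
    by_cases hrT : (⟨r, hr'⟩ : Fin n) ∈ T
    · rw [TH_succ θ hr', ← sup_assoc] at hw
      obtain ⟨y, hy, z, hz, hyz⟩ := Submodule.mem_sup.1 hw
      obtain ⟨g, rfl⟩ := Ideal.mem_span_singleton'.1 hz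
      have h1 : θ ⟨r, hr'⟩ * g ∈ A' ⊔ TH θ r := by
        have e : θ ⟨r, hr'⟩ * g = ρ * w - y := by
          rw [← hyz]; ring
        rw [e, hA']
        exact sub_mem (Ideal.mem_sup_left (Ideal.mem_sup_right
          (Ideal.mul_mem_right _ _ (Ideal.mem_span_singleton_self _))))
          ((sup_le_sup_right (le_sup_left : A ≤ A ⊔ Ideal.span {ρ}) (TH θ r)) hy)
      have h2 := hreg ⟨r, hr'⟩ hrT g h1
      change g ∈ A' ⊔ TH θ r at h2
      rw [hA', sup_assoc, sup_comm (Ideal.span {ρ}), ← sup_assoc] at h2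
      obtain ⟨b, hb, c', hc', hbc⟩ := Submodule.mem_sup.1 h2
      obtain ⟨c, rfl⟩ := Ideal.mem_span_singleton'.1 hc'
      have h3 : ρ * (w - θ ⟨r, hr'⟩ * c) ∈ A ⊔ TH θ r := by
        have e : ρ * (w - θ ⟨r, hr'⟩ * c) = y + b * θ ⟨r, hr'⟩ := by
          have : ρ * w = y + (b + c * ρ) * θ ⟨r, hr'⟩ := by rw [hbc, hyz]
          rw [mul_sub, this]
          ring
        rw [e]
        exact add_mem hy (Ideal.mul_mem_right _ _ hb)
      have h4 := (ih' _).1 h3
      rw [TH_succ θ hr', ← sup_assoc]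
      have e : w = (w - θ ⟨r, hr'⟩ * c) + θ ⟨r, hr'⟩ * c := by ring
      rw [e]
      exact add_mem (Ideal.mem_sup_left h4) (Ideal.mem_sup_right
        (Ideal.mul_mem_right _ _ (Ideal.mem_span_singleton_self _)))
    · have h1 : A ⊔ TH θ (r + 1) = A ⊔ TH θ r := by
        rw [TH_succ θ hr', ← sup_assoc]
        apply sup_eq_left.2
        rw [Ideal.span_singleton_le_iff_mem]
        exact Ideal.mem_sup_left (hT _ hrT)
      rw [h1] at hw
      have h2 := (ih' w).1 hw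
      rw [TH_succ θ hr', ← sup_assoc]
      exact Ideal.mem_sup_left h2

/-- One step: regularity. -/
lemma reg_step {A A' 𝔮 : Ideal P} {ρ : P} (hA' : A' = A ⊔ Ideal.span {ρ})
    (hcol : ∀ w, ρ * w ∈ A ↔ w ∈ 𝔮) (hT : ∀ j ∉ T, θ j ∈ A) (hreg : Reg θ T A')
    (hq : Reg θ T 𝔮) : Reg θ T A := by
  intro j hj x hx
  have hK := colon_step hA' hcol hT hreg j (by omega)
  have h1 : x ∈ A' ⊔ TH θ j := by
    refine hreg j hj x ?_
    rw [hA']
    exact (sup_le_sup_right (le_sup_left : A ≤ A ⊔ Ideal.span {ρ}) (TH θ j)) hx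
  rw [hA', sup_assoc, sup_comm (Ideal.span {ρ}), ← sup_assoc] at h1
  obtain ⟨y, hy, z, hz, rfl⟩ := Submodule.mem_sup.1 h1
  obtain ⟨w, rfl⟩ := Ideal.mem_span_singleton'.1 hz
  have h2 : ρ * (θ j * w) ∈ A ⊔ TH θ j := by
    have e : ρ * (θ j * w) = θ j * (y + w * ρ) - θ j * y := by ring
    rw [e]
    exact sub_mem hx (Ideal.mul_mem_left _ _ hy)
  have h3 := hq j hj w ((hK _).1 h2)
  have h4 := (hK w).2 h3
  rw [mul_comm w]
  exact add_mem hy h4

lemma reg_top : Reg θ T (⊤ : Ideal P) := by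
  intro j _ x _
  rw [top_sup_eq]
  trivial

/-- Regularity along the chain. -/
theorem shell_reg (hJ : ∀ m < N, J (m + 1) = J m ⊔ Ideal.span {R m})
    (hcol : ∀ m < N, ∀ w, R m * w ∈ J m ↔ w ∈ p m) (hN : J N = ⊤)
    (hT : ∀ j ∉ T, ∀ m, θ j ∈ J m) (hp : ∀ m < N, Reg θ T (p m)) :
    ∀ k m, m + k = N → Reg θ T (J m) := by
  intro k
  induction k with
  | zero =>
    intro m hm
    rw [show m = N by omega, hN]
    exact reg_top
  | succ k ih =>
    intro m hm
    exact reg_step (hJ m (by omega)) (hcol m (by omega)) (fun j hj => hT j hj m)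
      (ih (m + 1) (by omega)) (hp m (by omega))

/-! ### Dimensions -/

variable {k : Type*} [Field k] [Algebra k P]

/-- Additivity of the dimension in one step. -/
lemma finrank_step {A A' 𝔮 : Ideal P} {ρ : P} (hA' : A' = A ⊔ Ideal.span {ρ})
    (hcol : ∀ w, ρ * w ∈ A ↔ w ∈ 𝔮) [Module.Finite k (P ⧸ 𝔮)] [Module.Finite k (P ⧸ A')] :
    Module.Finite k (P ⧸ A) ∧ finrank k (P ⧸ A) = finrank k (P ⧸ 𝔮) + finrank k (P ⧸ A') := by
  have hle : 𝔮 ≤ Submodule.comap (ρ • (LinearMap.id : P →ₗ[P] P)) A := by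
    intro w hw
    exact (hcol w).2 hw
  let μ₀ : (P ⧸ 𝔮) →ₗ[P] (P ⧸ A) := Submodule.mapQ 𝔮 A (ρ • LinearMap.id) hle
  have hle' : A ≤ Submodule.comap (LinearMap.id : P →ₗ[P] P) A' := by
    intro w hw
    rw [hA']
    exact Ideal.mem_sup_left hw
  let π₀ : (P ⧸ A) →ₗ[P] (P ⧸ A') := Submodule.mapQ A A' LinearMap.id hle'
  let μ : (P ⧸ 𝔮) →ₗ[k] (P ⧸ A) := μ₀.restrictScalars k
  let π : (P ⧸ A) →ₗ[k] (P ⧸ A') := π₀.restrictScalars k
  have hμ : ∀ w : P, μ (Submodule.Quotient.mk w) = Submodule.Quotient.mk (ρ * w) := fun w => rfl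
  have hπ : ∀ w : P, π (Submodule.Quotient.mk w) = Submodule.Quotient.mk w := fun w => rfl
  have hinj : Function.Injective μ := by
    rw [← LinearMap.ker_eq_bot, eq_bot_iff]
    intro z hz
    obtain ⟨w, rfl⟩ := Submodule.Quotient.mk_surjective _ z
    rw [LinearMap.mem_ker, hμ, Submodule.Quotient.mk_eq_zero] at hz
    rw [Submodule.mem_bot, Submodule.Quotient.mk_eq_zero]
    exact (hcol w).1 hz
  have hsurj : Function.Surjective π := by
    intro z
    obtain ⟨w, rfl⟩ := Submodule.Quotient.mk_surjective _ z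
    exact ⟨Submodule.Quotient.mk w, hπ w⟩
  have hex : LinearMap.range μ = LinearMap.ker π := by
    ext z
    obtain ⟨w, rfl⟩ := Submodule.Quotient.mk_surjective _ z
    rw [LinearMap.mem_range, LinearMap.mem_ker, hπ, Submodule.Quotient.mk_eq_zero, hA']
    constructor
    · rintro ⟨y, hy⟩
      obtain ⟨v, rfl⟩ := Submodule.Quotient.mk_surjective _ y
      rw [hμ, Submodule.Quotient.eq] at hy
      have e : w = ρ * v - (ρ * v - w) := by ring
      rw [e]
      exact sub_mem (Ideal.mem_sup_right (Ideal.mul_mem_right _ _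
        (Ideal.mem_span_singleton_self _))) (Ideal.mem_sup_left hy)
    · intro hw
      obtain ⟨y, hy, z, hz, rfl⟩ := Submodule.mem_sup.1 hw
      obtain ⟨g, rfl⟩ := Ideal.mem_span_singleton'.1 hz
      refine ⟨Submodule.Quotient.mk g, ?_⟩
      rw [hμ, Submodule.Quotient.eq]
      have e : ρ * g - (y + g * ρ) = - y := by ring
      rw [e]
      exact neg_mem hy
  have hfinR : Module.Finite k (LinearMap.range μ) := inferInstance
  have hfinK : Module.Finite k (LinearMap.ker π) := hex ▸ hfinR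
  have hfinQ : Module.Finite k ((P ⧸ A) ⧸ LinearMap.ker π) :=
    Module.Finite.equiv (π.quotKerEquivOfSurjective hsurj).symm
  have hfin : Module.Finite k (P ⧸ A) := Module.Finite.of_submodule_quotient (LinearMap.ker π)
  refine ⟨hfin, ?_⟩
  have h1 := LinearMap.finrank_range_add_finrank_ker π
  rw [LinearMap.range_eq_top.2 hsurj, finrank_top, ← hex,
    LinearMap.finrank_range_of_inj hinj] at h1
  omega

/-- Dimension along the chain. -/
theorem shell_dim (hJ : ∀ m < N, J (m + 1) = J m ⊔ Ideal.span {R m})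
    (hcol : ∀ m < N, ∀ w, R m * w ∈ J m ↔ w ∈ p m) (hN : J N = ⊤)
    (hT : ∀ j ∉ T, ∀ m, θ j ∈ J m) (hp : ∀ m < N, Reg θ T (p m))
    (hfin : ∀ m < N, Module.Finite k (P ⧸ (p m ⊔ TH θ n)))
    (hone : ∀ m < N, finrank k (P ⧸ (p m ⊔ TH θ n)) = 1) :
    ∀ l m, m + l = N →
      Module.Finite k (P ⧸ (J m ⊔ TH θ n)) ∧ finrank k (P ⧸ (J m ⊔ TH θ n)) = l := by
  intro l
  induction l with
  | zero =>
    intro m hm
    have h1 : J m ⊔ TH θ n = ⊤ := by rw [show m = N by omega, hN, top_sup_eq]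
    have : Subsingleton (P ⧸ (J m ⊔ TH θ n)) := by
      rw [h1]
      infer_instance
    exact ⟨inferInstance, finrank_zero_of_subsingleton⟩
  | succ l ih =>
    intro m hm
    obtain ⟨h1, h2⟩ := ih (m + 1) (by omega)
    have hreg := shell_reg hJ hcol hN hT hp l (m + 1) (by omega)
    have hK := colon_step (hJ m (by omega)) (hcol m (by omega)) (fun j hj => hT j hj m) hreg n
      le_rfl
    have h3 := hfin m (by omega)
    have hA' : J (m + 1) ⊔ TH θ n = (J m ⊔ TH θ n) ⊔ Ideal.span {R m} := by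
      rw [hJ m (by omega), sup_assoc, sup_comm (Ideal.span {R m}), ← sup_assoc]
    obtain ⟨h4, h5⟩ := finrank_step (k := k) hA' hK
    refine ⟨h4, ?_⟩
    rw [h5, hone m (by omega), h2]
    omega

end

end Pool.Agent.Helper33.Mono
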